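import Pool.Agent.Q286.GB.All
import Pool.Agent.Q286.GB.RowsK
import Pool.Agent.Q240.OW.K3
import Pool.Agent.Q120.NL.All

/-!
# The distance of Nyman, Beurling and Báez-Duarte for elliptic curves over number fields

Let `E` be an elliptic curve over a number field `K`, `L(E/K, s) = ∑ c(n) n^(-s)`.  For `N ≥ 1` let

  `e_N² = inf_a ∫_1^∞ |1 - ∑_{k ≤ y} ∑_{n j = k, n ≤ N} a_n c(j) / √j|² dy/y²`

(only the numbers `c(n)` occur, no continuation), and let `d_N²` be the squared distance, in `L²` of the critical line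
`Re s = 1` with the measure `dt/(2π(1/4 + t²))`, of the constant `1` to the products `L(E/K, s) A(s)` with Dirichlet
polynomials `A(s) = ∑_{n ≤ N} a_n n^(-s)`.  Let

  `B = ∑_{g : Λ(E/K, 1 + i g) = 0} m(g)² / (1/4 + g²)`, `m(g)` = the multiplicity of the zero `1 + i g`,

so that the central point contributes `4 r²`, `r` the analytic rank.  For all `E/K` for which the properties conjectured
by Hasse and Weil hold (`Λ` entire, of finite order, `Λ(s) = ± Λ(2 - s)`) we prove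

* `e_N² ≤ d_N²`, and `4 r² ≤ B ≤ liminf e_N² log N`;
* under the Riemann hypothesis for `E/K`: `B < ∞` and `d_N² log N → B`, `e_N² log N → B`;
* if the Riemann hypothesis for `E/K` is false: `e_N² ≥ c > 0` for all `N`.

So the Riemann hypothesis for `E/K` holds if and only if `e_N → 0`, and then `e_N² log N` converges to `B`.

The same in all `L^p`, `1 ≤ p < ∞`, with all weights (`LpLaw`, file `Pool/Agent/Q120/NL/Law.lean`): let `D_{p,σ}(N)` be the
distance of the indicator function of `[1, ∞)` to the span of the functions `∑_{j ≤ y/n} c(j) / √j`, `n ≤ N`, in the norm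
`(∫_1^∞ |f|^p y^(-pσ-1) dy)^(1/p)` (so `e_N = D_{2,1/2}(N)`), and `1/2 + Θ` the supremum of the real parts of the zeros of
`Λ(E/K, s)`.  Then `D_{p,σ}(N) = N^(-max(0, σ - Θ) + o(1))`, and for `1 < p < ∞` the Riemann hypothesis for `E/K` holds if
and only if `D_{p,1/2}(N)` has the exact order `(log N)^(-(1 - 1/p))`.
-/

set_option autoImplicit false

open Complex NumberField IsDedekindDomain MeasureTheory Filter Topology
open scoped ComplexConjugate ENNReal

namespace Pool.Agent.Results.MP_fb225e_nt.DistanceFormula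

/-! ### Hasse-Weil L-functions of elliptic curves over number fields -/

/-- `W v` is, for every finite place `v`, an integral model of `E` with discriminant minimal at
`v`. -/
def MinimalModels {K : Type} [Field K] [NumberField K] (E : WeierstrassCurve K)
    (W : HeightOneSpectrum (𝓞 K) → WeierstrassCurve (𝓞 K)) : Prop :=
  ∀ v : HeightOneSpectrum (𝓞 K),
    (∃ C : WeierstrassCurve.VariableChange K, C • (W v).map (algebraMap (𝓞 K) K) = E) ∧
    ∀ W' : WeierstrassCurve (𝓞 K),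
      (∃ C : WeierstrassCurve.VariableChange K, C • W'.map (algebraMap (𝓞 K) K) = E) →
      ∀ n : ℕ, (W v).Δ ∈ v.asIdeal ^ n → W'.Δ ∈ v.asIdeal ^ n

open Classical in
/-- The Euler factor at `v`, `(1 - a_v Nv^{-s} + Nv^{1-2s})⁻¹` if the reduction at `v` is good and
`(1 - a_v Nv^{-s})⁻¹` if it is bad, where `a_v` is `Nv` minus the number of affine points of the
reduction of `W v`. -/
noncomputable def localFactor {K : Type} [Field K] [NumberField K]
    (W : HeightOneSpectrum (𝓞 K) → WeierstrassCurve (𝓞 K)) (v : HeightOneSpectrum (𝓞 K))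
    (s : ℂ) : ℂ :=
  (1 - ((Ideal.absNorm v.asIdeal : ℂ)
        - (Nat.card {xy : (𝓞 K ⧸ v.asIdeal) × (𝓞 K ⧸ v.asIdeal) //
            ((W v).map (Ideal.Quotient.mk v.asIdeal)).toAffine.Equation xy.1 xy.2} : ℂ))
        * (Ideal.absNorm v.asIdeal : ℂ) ^ (-s)
    + (if (W v).Δ ∈ v.asIdeal then 0 else (Ideal.absNorm v.asIdeal : ℂ))
        * (Ideal.absNorm v.asIdeal : ℂ) ^ (-2 * s))⁻¹

/-- The `L`-function `L(E/K, s)` in the half-plane of convergence, as the Euler product over all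
finite places. -/
noncomputable def LSeries {K : Type} [Field K] [NumberField K]
    (W : HeightOneSpectrum (𝓞 K) → WeierstrassCurve (𝓞 K)) (s : ℂ) : ℂ :=
  ∏' v : HeightOneSpectrum (𝓞 K), localFactor W v s

/-- `Λ` is the completed L-function `A^(s/2) ((2π)^(-s) Γ(s))^[K : ℚ] L(E/K, s)`, and it has the
properties conjectured by Hasse and Weil: it is entire, of finite order, and `Λ(s) = ± Λ(2 - s)`. -/
structure HasseWeil {K : Type} [Field K] [NumberField K]
    (W : HeightOneSpectrum (𝓞 K) → WeierstrassCurve (𝓞 K)) (A : ℝ) (Λ : ℂ → ℂ) : Prop where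
  one_le : 1 ≤ A
  entire : Differentiable ℂ Λ
  order : ∃ c ρ : ℝ, ∀ s : ℂ, ‖Λ s‖ ≤ Real.exp (c * (1 + ‖s‖) ^ ρ)
  fe : ∃ w : ℝ, (w = 1 ∨ w = -1) ∧ ∀ s : ℂ, Λ s = w * Λ (2 - s)
  eq : ∃ σ : ℝ, ∀ s : ℂ, σ ≤ s.re → Λ s = (A : ℂ) ^ (s / 2) *
    ((2 * (Real.pi : ℂ)) ^ (-s) * Gamma s) ^ Module.finrank ℚ K * LSeries W s

/-- An elliptic curve `E` over a number field `K` (for the problem: defined over `ℚ`), with minimal models, the
conductor `A` of its L-function and the completed L-function `Λ`, with the properties conjectured by Hasse and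
Weil. -/
structure Curve where
  /-- the number field -/
  K : Type
  [field : Field K]
  [numberField : NumberField K]
  /-- the elliptic curve -/
  E : WeierstrassCurve K
  [elliptic : E.IsElliptic]
  /-- minimal models -/
  W : HeightOneSpectrum (𝓞 K) → WeierstrassCurve (𝓞 K)
  minimal : MinimalModels E W
  /-- the conductor -/
  A : ℝ
  /-- the completed L-function -/
  Λ : ℂ → ℂ
  hasseWeil : HasseWeil W A Λ

attribute [instance] Curve.field Curve.numberField Curve.elliptic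

/-- The degree of the number field. -/
noncomputable def Curve.deg (X : Curve) : ℕ := Module.finrank ℚ X.K

/-- The L-function `L(E/K, s) = (A^(s/2) ((2π)^(-s) Γ(s))^[K : ℚ])⁻¹ Λ(s)`, an entire function. -/
noncomputable def L (X : Curve) (s : ℂ) : ℂ :=
  ((X.A : ℂ) ^ (s / 2) * ((2 * (Real.pi : ℂ)) ^ (-s) * Gamma s) ^ X.deg)⁻¹ * X.Λ s

/-- The Riemann hypothesis for `E/K`: all zeros of `Λ(E/K, s)` have real part `1`. -/
def RiemannHypothesis (X : Curve) : Prop := ∀ s : ℂ, X.Λ s = 0 → s.re = 1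

/-- The analytic rank: the order of `Λ(E/K, s)` (and of `L(E/K, s)`) at `s = 1`. -/
noncomputable def rank (X : Curve) : ℕ := analyticOrderNatAt X.Λ 1

/-- `c` is the sequence of the coefficients of the Euler product: `L(E/K, s) = ∑ c(n) n^(-s)` for `Re s ≥ 5/2` (and
`c(0) = 0`). -/
def IsCoeff (X : Curve) (c : ℕ → ℂ) : Prop :=
  c 0 = 0 ∧ ∀ s : ℂ, 5 / 2 ≤ s.re → HasSum (fun n : ℕ => c n * (n : ℂ) ^ (-s)) (LSeries X.W s)

/-- `d_N² = inf_a (1/2π) ∫ |1 - L(E/K, 1 + it) ∑_{n ≤ N} a_n n^(-1 - it)|² dt / (1/4 + t²)`. -/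
noncomputable def d2 (X : Curve) (N : ℕ) : ℝ≥0∞ :=
  ⨅ a : ℕ → ℂ, ENNReal.ofReal (1 / (2 * Real.pi)) * ∫⁻ t : ℝ, ENNReal.ofReal
    (‖1 - L X (1 + t * I) * ∑ n ∈ Finset.Icc 1 N, a n * (n : ℂ) ^ (-(1 + t * I : ℂ))‖ ^ 2 / (1 / 4 + t ^ 2))

/-- `e_N² = inf_a ∫_1^∞ |1 - ∑_{k ≤ y} ∑_{n j = k, n ≤ N} a_n c(j) / √j|² dy / y²`. -/
noncomputable def e2 (c : ℕ → ℂ) (N : ℕ) : ℝ≥0∞ :=
  ⨅ a : ℕ → ℂ, ∫⁻ y in Set.Ioi (1 : ℝ), ENNReal.ofReal
    (‖1 - ∑ k ∈ Finset.Icc 1 ⌊y⌋₊, ∑ p ∈ k.divisorsAntidiagonal,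
      (if p.1 ≤ N then a p.1 else 0) * (c p.2 / (Real.sqrt p.2 : ℂ))‖ ^ 2 / y ^ 2)

/-- `B = ∑ m(g)² / (1/4 + g²)` over the zeros `1 + i g` of `Λ(E/K, s)` on the critical line, `m(g)` the
multiplicity. -/
noncomputable def B (X : Curve) : ℝ≥0∞ :=
  ∑' g : {g : ℝ // X.Λ (1 + g * I) = 0},
    ENNReal.ofReal ((analyticOrderNatAt X.Λ (1 + (g : ℝ) * I) : ℝ) ^ 2 / (1 / 4 + (g : ℝ) ^ 2))

open Q240.OW Pool.Agent.TH839.UH Pool.Agent.Q286.GB
open Pool.Agent.H921R2.TatePole (nm)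

/-- the coefficient `a_v` -/
noncomputable def tr (X : Curve) (v : HeightOneSpectrum (𝓞 X.K)) : ℂ :=
  (Ideal.absNorm v.asIdeal : ℂ) - (Nat.card {xy : (𝓞 X.K ⧸ v.asIdeal) × (𝓞 X.K ⧸ v.asIdeal) //
    ((X.W v).map (Ideal.Quotient.mk v.asIdeal)).toAffine.Equation xy.1 xy.2} : ℂ)

open Classical in
/-- `Nv` or `0` -/
noncomputable def dl (X : Curve) (v : HeightOneSpectrum (𝓞 X.K)) : ℂ :=
  if (X.W v).Δ ∈ v.asIdeal then 0 else (Ideal.absNorm v.asIdeal : ℂ)

lemma EL_eq (X : Curve) (s : ℂ) : EL (tr X) (dl X) s = LSeries X.W s := by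
  classical
  unfold LSeries EL
  refine tprod_congr fun v => ?_
  unfold localFactor NF.gv Pool.Agent.H921R2.TatePole.nm tr dl
  congr 1
  ring

lemma kl (X : Curve) : KL (tr X) (dl X) X.A X.Λ := by
  classical
  have h := X.hasseWeil
  refine ⟨fun v => trace_le v _, fun v => ?_, fun v => ?_, fun v => ?_,
    h.one_le, h.entire, h.order, h.fe, ?_⟩
  · show ‖(if (X.W v).Δ ∈ v.asIdeal then 0 else (Ideal.absNorm v.asIdeal : ℂ))‖ ≤
      ((Ideal.absNorm v.asIdeal : ℕ) : ℝ)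
    split_ifs
    · rw [norm_zero]
      exact Nat.cast_nonneg _
    · rw [Complex.norm_natCast]
  · show conj ((Ideal.absNorm v.asIdeal : ℂ) - ((_ : ℕ) : ℂ)) = _
    rw [map_sub, Complex.conj_natCast, Complex.conj_natCast]
    rfl
  · show conj (if (X.W v).Δ ∈ v.asIdeal then 0 else (Ideal.absNorm v.asIdeal : ℂ)) = dl X v
    unfold dl
    split_ifs
    · rw [map_zero]
    · rw [Complex.conj_natCast]
  · obtain ⟨σ, hσ⟩ := h.eq
    refine ⟨σ, fun s hs => ?_⟩
    rw [hσ s hs, EL_eq]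

lemma dl_or (X : Curve) (v : HeightOneSpectrum (𝓞 X.K)) : dl X v = 0 ∨ dl X v = (nm v : ℂ) := by
  classical
  unfold dl
  split_ifs
  · exact Or.inl rfl
  · exact Or.inr rfl

lemma sqrt_cpow (n : ℕ) : ((Real.sqrt n : ℝ) : ℂ) = (n : ℂ) ^ (1 / 2 : ℂ) := by
  rw [Real.sqrt_eq_rpow, Complex.ofReal_cpow (Nat.cast_nonneg n)]
  push_cast
  rfl

/-- the two normalisations of the coefficients -/
lemma co_iff (X : Curve) (c : ℕ → ℂ) :
    IsCoeff X c ↔ c 0 = 0 ∧ IsCo (Q286.GB.LL (mu X.deg) (sdk X.deg X.A X.Λ)) (fun n => c n / (Real.sqrt n : ℂ)) := by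
  have hA : 0 < X.A := by linarith [X.hasseWeil.one_le]
  have hL : ∀ s : ℂ, 2 ≤ s.re → Q286.GB.LL (mu X.deg) (sdk X.deg X.A X.Λ) s = LSeries X.W (s + 1 / 2) := by
    intro s hs
    have hre : (s + 1 / 2).re = s.re + 1 / 2 := by simp
    rw [show Q286.GB.LL (mu X.deg) (sdk X.deg X.A X.Λ) s = LK X.deg X.A X.Λ (s + 1 / 2) from LL_sdk hA X.Λ s,
      ← EL_eq]
    exact LK_EL (kl X) (by rw [hre]; linarith)
  have hterm : ∀ (s : ℂ) (n : ℕ), c 0 = 0 → c n / (Real.sqrt n : ℂ) * (n : ℂ) ^ (-s) =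
      c n * (n : ℂ) ^ (-(s + 1 / 2)) := by
    intro s n h0
    rcases Nat.eq_zero_or_pos n with rfl | hn
    · rw [h0]
      simp
    · have hn0 : (n : ℂ) ≠ 0 := by exact_mod_cast hn.ne'
      rw [sqrt_cpow n, neg_add, Complex.cpow_add _ _ hn0, Complex.cpow_neg _ (1 / 2)]
      ring
  constructor
  · rintro ⟨h0, h1⟩
    refine ⟨h0, by simp [h0], fun s hs => ?_⟩
    have hre : (s + 1 / 2).re = s.re + 1 / 2 := by simp
    rw [hL s hs]
    simp only [hterm s _ h0]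
    exact h1 _ (by rw [hre]; linarith)
  · rintro ⟨h0, -, h1⟩
    refine ⟨h0, fun s hs => ?_⟩
    have hre : (s - 1 / 2).re = s.re - 1 / 2 := by simp
    have h2 := h1 (s - 1 / 2) (by rw [hre]; linarith)
    rw [hL _ (by rw [hre]; linarith), sub_add_cancel] at h2
    simp only [hterm (s - 1 / 2) _ h0, sub_add_cancel] at h2
    exact h2

lemma cst (X : Curve) : ((2 ^ X.deg * X.A ^ (-(1 / 4 : ℝ)) : ℝ) : ℂ) ≠ 0 := by
  have hA : 0 < X.A := by linarith [X.hasseWeil.one_le]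
  exact cst_ne hA

lemma concl_curve (X : Curve) : ∃ c : ℕ → ℂ, IsCoeff X c ∧
    Concl (L X) (fun n => c n / (Real.sqrt n : ℂ)) X.Λ 1 ∧
    Pool.Agent.Q120.NL.LpLaw (fun n => c n / (Real.sqrt n : ℂ))
      {x : ℝ | ∃ s : ℂ, X.Λ s = 0 ∧ s.re = x + 1 / 2} := by
  have hA : 0 < X.A := by linarith [X.hasseWeil.one_le]
  obtain ⟨O, hL, hX⟩ := objK facts.eul facts.obj (kl X) (dl_or X)
  have hco : IsCo (Q286.GB.LL (mu X.deg) (sdk X.deg X.A X.Λ)) O.lam := by
    have h1 := isCo O.toLFn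
    rw [hL] at h1
    exact h1
  have hlam : (fun n => O.lam n * (Real.sqrt n : ℂ) / (Real.sqrt n : ℂ)) = O.lam := by
    funext n
    rcases Nat.eq_zero_or_pos n with rfl | hn
    · rw [hco.1]
      simp
    · have h1 : ((Real.sqrt n : ℝ) : ℂ) ≠ 0 := by
        have : (0 : ℝ) < n := by exact_mod_cast hn
        exact_mod_cast (Real.sqrt_pos.2 this).ne'
      rw [mul_div_assoc, div_self h1, mul_one]
  refine ⟨fun n => O.lam n * (Real.sqrt n : ℂ), ?_, ?_, ?_⟩
  · refine (co_iff X _).2 ⟨by simp, ?_⟩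
    rw [hlam]
    exact hco
  · rw [hlam]
    have h := concl facts O
    refine concl_shift h _ (cst X) O.diff (fun s _ => ?_) (fun s => ?_)
    · rw [hL]
      exact LL_sdk hA X.Λ s
    · rw [hX]
      rfl
  · rw [hlam]
    have hdeg : 0 < X.deg := Module.finrank_pos
    have hX2 : O.X = fun s => (X.A : ℂ) ^ (s / 2) * sdk X.deg X.A X.Λ s := by
      rw [hX]
      funext s
      unfold sdk
      have hA' : (X.A : ℂ) ≠ 0 := by exact_mod_cast hA.ne'
      rw [← mul_assoc, ← Complex.cpow_add _ _ hA', add_neg_cancel, Complex.cpow_zero, one_mul]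
      rfl
    have h1 := Pool.Agent.Q120.NL.law_all O (Pool.Agent.Q120.NL.zero_of O (m := X.deg + X.deg) (by omega) hA
      (fun j => by
        have h3 : (mu X.deg j).re ≤ -1 / 2 := Q240.OW.mu_le j
        exact lt_of_le_of_lt h3 (by norm_num)) hL hX2)
    have h2 := Pool.Agent.Q120.NL.RX_shift (X := O.X) (X' := X.Λ) (k := 1 / 2) (cst X) (fun s => by
      rw [hX, show (((1 / 2 : ℝ)) : ℂ) = 1 / 2 by push_cast; rfl]
      rfl)
    rwa [h2] at h1

lemma four_le (X : Curve) : ENNReal.ofReal (4 * (rank X : ℝ) ^ 2) ≤ B X := by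
  by_cases h0 : X.Λ 1 = 0
  · have hmem : X.Λ (1 + ((0 : ℝ) : ℂ) * I) = 0 := by
      rw [ofReal_zero, zero_mul, add_zero]
      exact h0
    have h1 := ENNReal.le_tsum (f := fun g : {g : ℝ // X.Λ (1 + g * I) = 0} =>
      ENNReal.ofReal ((analyticOrderNatAt X.Λ (1 + (g : ℝ) * I) : ℝ) ^ 2 / (1 / 4 + (g : ℝ) ^ 2))) ⟨0, hmem⟩
    refine le_trans (le_of_eq ?_) h1
    have e1 : (1 + (((0 : ℝ)) : ℂ) * I) = 1 := by simp
    show _ = ENNReal.ofReal ((analyticOrderNatAt X.Λ (1 + (((0 : ℝ)) : ℂ) * I) : ℝ) ^ 2 / (1 / 4 + (0 : ℝ) ^ 2))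
    rw [e1]
    unfold rank
    congr 1
    ring
  · have h1 : rank X = 0 := by
      unfold rank analyticOrderNatAt
      rw [(X.hasseWeil.entire.analyticAt 1).analyticOrderAt_eq_zero.2 h0]
      rfl
    rw [h1]
    simp

/-- **The distance formula for elliptic curves over number fields.** -/
theorem result (X : Curve) :
    (∃! c : ℕ → ℂ, IsCoeff X c) ∧ ∀ c : ℕ → ℂ, IsCoeff X c →
      (∀ N, e2 c N ≤ d2 X N) ∧
      ENNReal.ofReal (4 * (rank X : ℝ) ^ 2) ≤ B X ∧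
      B X ≤ liminf (fun N : ℕ => e2 c N * ENNReal.ofReal (Real.log N)) atTop ∧
      (RiemannHypothesis X → B X ≠ ⊤ ∧
        Tendsto (fun N : ℕ => d2 X N * ENNReal.ofReal (Real.log N)) atTop (𝓝 (B X)) ∧
        Tendsto (fun N : ℕ => e2 c N * ENNReal.ofReal (Real.log N)) atTop (𝓝 (B X))) ∧
      (¬ RiemannHypothesis X → ∃ b : ℝ≥0∞, b ≠ 0 ∧ ∀ N : ℕ, b ≤ e2 c N) ∧
      (RiemannHypothesis X ↔ Tendsto (e2 c) atTop (𝓝 0)) ∧
      (RiemannHypothesis X ↔ Tendsto (d2 X) atTop (𝓝 0)) ∧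
      Pool.Agent.Q120.NL.LpLaw (fun n => c n / (Real.sqrt n : ℂ))
        {x : ℝ | ∃ s : ℂ, X.Λ s = 0 ∧ s.re = x + 1 / 2} := by
  obtain ⟨c0, h0, H, HL⟩ := concl_curve X
  have hu : ∀ c : ℕ → ℂ, IsCoeff X c → c = c0 := fun c h => by
    obtain ⟨a0, a1⟩ := (co_iff X c).1 h
    obtain ⟨b0, b1⟩ := (co_iff X c0).1 h0
    have h2 := a1.unique b1
    funext n
    rcases Nat.eq_zero_or_pos n with rfl | hn
    · rw [a0, b0]
    · have h3 : ((Real.sqrt n : ℝ) : ℂ) ≠ 0 := by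
        have : (0 : ℝ) < n := by exact_mod_cast hn
        exact_mod_cast (Real.sqrt_pos.2 this).ne'
      have h4 : c n / (Real.sqrt n : ℂ) = c0 n / (Real.sqrt n : ℂ) := congrFun h2 n
      rwa [div_left_inj' h3] at h4
  refine ⟨⟨c0, h0, hu⟩, fun c hc => ?_⟩
  rw [hu c hc]
  have hone : ∀ g : ℝ, (((1 : ℝ)) : ℂ) + g * I = 1 + g * I := fun g => by push_cast; ring
  have hd : dd (L X) 1 = d2 X := by
    funext N
    unfold dd d2
    simp only [hone]
  have he : ee (fun n => c0 n / (Real.sqrt n : ℂ)) = e2 c0 := rfl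
  have hB : BB X.Λ 1 = B X := BB_pt (f := fun g : ℝ => 1 + g * I) fun g => (hone g).symm
  have h1 := H.le
  have h2 := H.low
  have h3 := H.rh
  have h4 := H.nrh
  have h5 := H.zero_e
  have h6 := H.zero_d
  rw [hd] at h1 h3 h6
  rw [hB] at h2 h3
  rw [he] at h1 h2 h3 h4 h5
  exact ⟨h1, four_le X, h2, h3, h4, h5, h6, HL⟩

end Pool.Agent.Results.MP_fb225e_nt.DistanceFormula
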