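import Pool.Agent.Q286.PG.All
import Pool.Agent.Q286.PG.Pw
import Pool.Agent.Q286.XG.EK2
import Pool.Agent.Q240.OW.K3
import Pool.Agent.Q286.EW.Out2
import Pool.Agent.Q286.EW.AllU

/-!
# MP_fb225e_nt: an effective form of Weil's criterion for an elliptic curve over a number field, stable under changes of the traces of Frobenius and of the conductor

Let `E` be an elliptic curve over a number field `K` of degree `d`, for which the properties conjectured by Hasse and Weil hold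
(`Λ(E/K, s)` entire, of finite order, `Λ(s) = ± Λ(2 - s)`), with conductor `A` (of the L-function) and the coefficients `a_v`.  Let `W_a` be
Weil's quadratic form of `E/K` on the functions on `[-a, a]`: it is written through `A`, the archimedean places and the traces
`α_v^k + β_v^k` of the powers of Frobenius for `Nv^k ≤ exp (2 a)`, which enter with the weights `log Nv (α_v^k + β_v^k) / Nv^k`.  The Riemann
hypothesis for `E/K` is equivalent to its positivity for all `a` (Weil).  We also consider the form in which the conductor is replaced by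
a number `Q > 0`, and the weight of `n` is changed by a number `x(n)`; only the archimedean part is kept.  The functions have degree at least
`C a exp (a / d)` (trigonometric polynomials on `[-a, a]`), the infinite degree (the whole form domain) is included.  No hypothesis on the zeros
is made.

* (1) For any `h < 2 π A^(-1 / (2 d))` there are `C, κ > 0` such that for one large `a` and any `Y ≤ exp (a / d)`: if the form is at least
  `-exp (-Y) ∫ |f|²` then all the zeros of `Λ` with `|Im s| ≤ h exp (a / d)` are at distance at most `2 exp (-κ Y / a)` from the line `Re s = 1`.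
  So a lower bound of the spectrum gives the horizontal position of all the zeros up to the height `h exp (a / d)`, in every precision: a bound
  which is a power of `exp (-a)` gives a strip, and an exponentially small bound (`Y = exp (a / d)`) gives an almost exponentially small distance.
* (2) For any `c < 4 π d A^(-1 / (2 d))` and large `a`: if the numbers `a_v` at finitely many places `v` of good reduction with pairwise
  coprime norms are replaced by real numbers `b_v`, `|b_v| ≤ 2 √Nv` (in all powers), and `A` by `Q`, and the form is nonnegative, then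
  `log (A / Q) ≤ exp (-c exp (a / d))` and `|b_v - a_v| ≤ K max(0, log (Q / A)) + exp (-c exp (a / d))`.  So no smaller conductor is
  possible, and with the true (or a smaller) conductor the positivity determines these `a_v`, with a doubly exponential accuracy; and if
  `log (Q / A) ≤ exp (-Y)` then the zeros are as in (1).  The same holds for arbitrary changes `x(n)` of finitely many weights.
* (3) If all weights are changed, with bounded total change, and the conductor is not (or very little) increased, and the form is nonnegative, then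
  the conductor and each single weight are almost right.
* (4) A summable change `x` of the weights and a conductor `Q ≤ A` give a nonnegative form for arbitrarily large `a` if and only if the
  Riemann hypothesis holds for `E/K`, `Q = A` and `x = 0`.
* (5) The Riemann hypothesis holds for `E/K` if and only if for arbitrarily large `a` the positivity can be reached by a change of the
  weights of total size at most `exp (ε a)` and of the logarithm of the conductor by at most `exp (ε a)`, for every `ε > 0`; and if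
  and only if it can be reached by changes of the weights of the `n ≤ k` (`k` fixed, changes of any size) and of the conductor (at most `B`).
-/

set_option autoImplicit false

open Complex NumberField IsDedekindDomain MeasureTheory Filter Topology
open scoped ComplexConjugate

namespace Pool.Agent.Results.MP_fb225e_nt.EffectiveCriterion

/-! ### Hasse-Weil L-functions of elliptic curves over number fields -/

/-- `W v` is, for every finite place `v`, an integral model of `E` with discriminant minimal at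
`v`. -/
def MinimalModels {K : Type} [Field K] [NumberField K] (E : WeierstrassCurve K)
    (W : HeightOneSpectrum (𝓞 K) → WeierstrassCurve (𝓞 K)) : Prop :=
  ∀ v : HeightOneSpectrum (𝓞 K),
    (∃ C : WeierstrassCurve.VariableChange K, C • (W v).map (algebraMap (𝓞 K) K) = E) ∧
    ∀ W' : WeierstrassCurve (𝓞 K),
      (∃ C : WeierstrassCurve.VariableChange K, C • W'.map (algebraMap (𝓞 K) K) = E) →
      ∀ n : ℕ, (W v).Δ ∈ v.asIdeal ^ n → W'.Δ ∈ v.asIdeal ^ n

open Classical in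
/-- The Euler factor at `v`, `(1 - a_v Nv^{-s} + Nv^{1-2s})⁻¹` if the reduction at `v` is good and
`(1 - a_v Nv^{-s})⁻¹` if it is bad, where `a_v` is `Nv` minus the number of affine points of the
reduction of `W v`. -/
noncomputable def localFactor {K : Type} [Field K] [NumberField K]
    (W : HeightOneSpectrum (𝓞 K) → WeierstrassCurve (𝓞 K)) (v : HeightOneSpectrum (𝓞 K))
    (s : ℂ) : ℂ :=
  (1 - ((Ideal.absNorm v.asIdeal : ℂ)
        - (Nat.card {xy : (𝓞 K ⧸ v.asIdeal) × (𝓞 K ⧸ v.asIdeal) //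
            ((W v).map (Ideal.Quotient.mk v.asIdeal)).toAffine.Equation xy.1 xy.2} : ℂ))
        * (Ideal.absNorm v.asIdeal : ℂ) ^ (-s)
    + (if (W v).Δ ∈ v.asIdeal then 0 else (Ideal.absNorm v.asIdeal : ℂ))
        * (Ideal.absNorm v.asIdeal : ℂ) ^ (-2 * s))⁻¹

/-- The `L`-function `L(E/K, s)` in the half-plane of convergence, as the Euler product over all
finite places. -/
noncomputable def LSeries {K : Type} [Field K] [NumberField K]
    (W : HeightOneSpectrum (𝓞 K) → WeierstrassCurve (𝓞 K)) (s : ℂ) : ℂ :=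
  ∏' v : HeightOneSpectrum (𝓞 K), localFactor W v s

/-- `Λ` is the completed L-function `A^(s/2) ((2π)^(-s) Γ(s))^[K : ℚ] L(E/K, s)`, and it has the
properties conjectured by Hasse and Weil: it is entire, of finite order, and `Λ(s) = ± Λ(2 - s)`. -/
structure HasseWeil {K : Type} [Field K] [NumberField K]
    (W : HeightOneSpectrum (𝓞 K) → WeierstrassCurve (𝓞 K)) (A : ℝ) (Λ : ℂ → ℂ) : Prop where
  one_le : 1 ≤ A
  entire : Differentiable ℂ Λ
  order : ∃ c ρ : ℝ, ∀ s : ℂ, ‖Λ s‖ ≤ Real.exp (c * (1 + ‖s‖) ^ ρ)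
  fe : ∃ w : ℝ, (w = 1 ∨ w = -1) ∧ ∀ s : ℂ, Λ s = w * Λ (2 - s)
  eq : ∃ σ : ℝ, ∀ s : ℂ, σ ≤ s.re → Λ s = (A : ℂ) ^ (s / 2) *
    ((2 * (Real.pi : ℂ)) ^ (-s) * Gamma s) ^ Module.finrank ℚ K * LSeries W s

/-- An elliptic curve `E` over a number field `K` (for the problem: defined over `ℚ`), with minimal models, the
conductor `A` of its L-function and the completed L-function `Λ`, with the properties conjectured by Hasse and
Weil. -/
structure Curve where
  /-- the number field -/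
  K : Type
  [field : Field K]
  [numberField : NumberField K]
  /-- the elliptic curve -/
  E : WeierstrassCurve K
  [elliptic : E.IsElliptic]
  /-- minimal models -/
  W : HeightOneSpectrum (𝓞 K) → WeierstrassCurve (𝓞 K)
  minimal : MinimalModels E W
  /-- the conductor -/
  A : ℝ
  /-- the completed L-function -/
  Λ : ℂ → ℂ
  hasseWeil : HasseWeil W A Λ

attribute [instance] Curve.field Curve.numberField Curve.elliptic

/-- The degree of the number field. -/
noncomputable def Curve.deg (X : Curve) : ℕ := Module.finrank ℚ X.K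

/-- The norm `Nv` of a finite place. -/
noncomputable def nrm {K : Type} [Field K] [NumberField K] (v : HeightOneSpectrum (𝓞 K)) : ℕ := Ideal.absNorm v.asIdeal

/-- The coefficient `a_v`: `Nv` minus the number of affine points of the reduction of the minimal model at `v`. -/
noncomputable def trace (X : Curve) (v : HeightOneSpectrum (𝓞 X.K)) : ℂ :=
  (nrm v : ℂ) - (Nat.card {xy : (𝓞 X.K ⧸ v.asIdeal) × (𝓞 X.K ⧸ v.asIdeal) //
    ((X.W v).map (Ideal.Quotient.mk v.asIdeal)).toAffine.Equation xy.1 xy.2} : ℂ)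

open Classical in
/-- `Nv` if the reduction at `v` is good and `0` if it is bad. -/
noncomputable def good (X : Curve) (v : HeightOneSpectrum (𝓞 X.K)) : ℂ := if (X.W v).Δ ∈ v.asIdeal then 0 else (nrm v : ℂ)

/-- The traces of the powers of Frobenius at `v`: `t_k = α^k + β^k` (`k ≥ 1`), where
`1 - a_v T + Nv T² = (1 - α T)(1 - β T)` if the reduction is good and `1 - a_v T = 1 - α T`, `β = 0` if it is bad. -/
noncomputable def frob (X : Curve) (v : HeightOneSpectrum (𝓞 X.K)) : ℕ → ℂ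
  | 0 => 2
  | 1 => trace X v
  | k + 2 => trace X v * frob X v (k + 1) - good X v * frob X v k

/-- The Riemann hypothesis for `E/K`: all zeros of `Λ(E/K, s)` have real part `1`. -/
def RiemannHypothesis (X : Curve) : Prop := ∀ s : ℂ, X.Λ s = 0 → s.re = 1

/-! ### The quadratic form and the changes -/

/-- The trigonometric polynomials of degree at most `n` on `[-a, a]`, extended by `0`. -/
def Trig (a : ℝ) (n : ℕ) (f : ℝ → ℂ) : Prop := ∃ c : ℤ → ℂ, ∀ x : ℝ,
  f x = if |x| ≤ a then ∑ k ∈ Finset.Icc (-(n : ℤ)) n, c k * cexp ((Real.pi * k * x / a : ℝ) * I) else 0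

/-- The Mellin transform of `f` in the logarithmic variable, centred at `1`. -/
noncomputable def M (f : ℝ → ℂ) (s : ℂ) : ℂ := ∫ x : ℝ, f x * cexp ((s - 1) * x)

/-- Weil's quadratic form of `E/K` for functions supported in `[-a, a]`: the conductor, the archimedean places (Gamma factor
`((2π)^(-s) Γ(s))^[K : ℚ]`) and the powers `Nv^k ≤ exp (2 a)` (`k ≥ 1`) of the norms of the finite places. -/
noncomputable def W (X : Curve) (a : ℝ) (f : ℝ → ℂ) : ℝ :=
  1 / (2 * Real.pi) * (∫ x : ℝ, (Real.log X.A + X.deg * (2 * (digamma (1 + x * I)).re - 2 * Real.log (2 * Real.pi))) *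
    ‖M f (1 + x * I)‖ ^ 2) -
  2 * (∑ᶠ x ∈ {x : HeightOneSpectrum (𝓞 X.K) × ℕ | 1 ≤ x.2 ∧ (nrm x.1 : ℝ) ^ x.2 ≤ Real.exp (2 * a)},
    Real.log (nrm x.1) / (nrm x.1 : ℂ) ^ x.2 * frob X x.1 x.2 *
    ∫ y : ℝ, f (y + x.2 * Real.log (nrm x.1)) * (starRingEnd ℂ) (f y)).re

/-- The form domain: the square integrable functions `f` with support in `[-a, a]` and `∫ log (3 + |t|) |M f (1 + i t)|² dt < ∞`. -/
def FormDomain (a : ℝ) (f : ℝ → ℂ) : Prop := MemLp f 2 volume ∧ (∀ x : ℝ, a < |x| → f x = 0) ∧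
  Integrable fun t : ℝ => Real.log (3 + |t|) * ‖M f (1 + t * I)‖ ^ 2

/-- The functions of degree at most `ν ≤ ∞`: trigonometric polynomials, or (`ν = ∞`) all functions in the form domain. -/
def Degree (a : ℝ) (ν : ℕ∞) (f : ℝ → ℂ) : Prop := (∃ n : ℕ, ν = n ∧ Trig a n f) ∨ (ν = ⊤ ∧ FormDomain a f)

/-- The degree `ν ≤ ∞` is at least `x`. -/
def Large (x : ℝ) (ν : ℕ∞) : Prop := ∀ n : ℕ, ν = n → x ≤ n

/-- Weil's quadratic form of `E/K` with the number `Q` in place of the conductor `A` (which enters through `log A ∫ |f|²`) and with the weight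
of `n ≥ 2` (the sum of `log Nv (α_v^k + β_v^k) / Nv^k` over the `v`, `k` with `Nv^k = n`) changed by `x n`. -/
noncomputable def V (X : Curve) (Q : ℝ) (x : ℕ → ℂ) (a : ℝ) (f : ℝ → ℂ) : ℝ :=
  W X a f + Real.log (Q / X.A) * (∫ y : ℝ, ‖f y‖ ^ 2) -
  2 * (∑ n ∈ Finset.Icc 2 ⌊Real.exp (2 * a)⌋₊, x n * ∫ y : ℝ, f (y + Real.log n) * (starRingEnd ℂ) (f y)).re

/-- The form is nonnegative on the functions of degree at most `ν` on `[-a, a]`. -/
def Nonneg (X : Curve) (a : ℝ) (ν : ℕ∞) (Q : ℝ) (x : ℕ → ℂ) : Prop := ∀ f : ℝ → ℂ, Degree a ν f → 0 ≤ V X Q x a f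

/-- The numbers `α^k + β^k`, where `1 - b T + p T² = (1 - α T)(1 - β T)`. -/
noncomputable def power (p : ℕ) (b : ℝ) : ℕ → ℝ
  | 0 => 2
  | 1 => b
  | k + 2 => b * power p b (k + 1) - p * power p b k

/-- The change of the weights when `a_v` is replaced by the real number `b v`, for the places `v ∈ S`: the trace of the `k`-th power of
Frobenius at `v` becomes `power Nv (b v) k` (`k ≥ 1`; it enters in the weight of `n = Nv^k`, with the factor `log Nv / n`). -/
noncomputable def change (X : Curve) (S : Finset (HeightOneSpectrum (𝓞 X.K))) (b : HeightOneSpectrum (𝓞 X.K) → ℝ) (n : ℕ) : ℂ :=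
  ∑ v ∈ S, if 2 ≤ n ∧ n = nrm v ^ Nat.log (nrm v) n then
    (Real.log (nrm v) / n : ℝ) * ((power (nrm v) (b v) (Nat.log (nrm v) n) : ℝ) - frob X v (Nat.log (nrm v) n)) else 0

/-- The places in `S` have good reduction and pairwise coprime norms. -/
def Separated (X : Curve) (S : Finset (HeightOneSpectrum (𝓞 X.K))) : Prop :=
  (∀ v ∈ S, (X.W v).Δ ∉ v.asIdeal) ∧ ∀ v ∈ S, ∀ w ∈ S, v ≠ w → Nat.Coprime (nrm v) (nrm w)

/-! ### The proof -/

open Q240.OW Pool.Agent.TH839.UH Pool.Agent.Q286.TR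
open Pool.Agent.H921R2.TatePole (nm)

lemma EL_eq (X : Curve) (s : ℂ) : EL (trace X) (good X) s = LSeries X.W s := by
  classical
  unfold LSeries EL
  refine tprod_congr fun v => ?_
  unfold localFactor NF.gv Pool.Agent.H921R2.TatePole.nm trace good nrm
  congr 1
  ring

lemma kl (X : Curve) : KL (trace X) (good X) X.A X.Λ := by
  classical
  have h := X.hasseWeil
  refine ⟨fun v => trace_le v _, fun v => ?_, fun v => ?_, fun v => ?_,
    h.one_le, h.entire, h.order, h.fe, ?_⟩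
  · show ‖(if (X.W v).Δ ∈ v.asIdeal then 0 else (Ideal.absNorm v.asIdeal : ℂ))‖ ≤
      ((Ideal.absNorm v.asIdeal : ℕ) : ℝ)
    split_ifs
    · rw [norm_zero]
      exact Nat.cast_nonneg _
    · rw [Complex.norm_natCast]
  · show conj ((Ideal.absNorm v.asIdeal : ℂ) - ((_ : ℕ) : ℂ)) = _
    rw [map_sub, Complex.conj_natCast, Complex.conj_natCast]
    rfl
  · show conj (if (X.W v).Δ ∈ v.asIdeal then 0 else (Ideal.absNorm v.asIdeal : ℂ)) = good X v
    unfold good nrm
    split_ifs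
    · rw [map_zero]
    · rw [Complex.conj_natCast]
  · obtain ⟨σ, hσ⟩ := h.eq
    refine ⟨σ, fun s hs => ?_⟩
    rw [hσ s hs, EL_eq]

lemma good_or (X : Curve) (v : HeightOneSpectrum (𝓞 X.K)) : good X v = 0 ∨ good X v = (nm v : ℂ) := by
  classical
  unfold good
  split_ifs
  · exact Or.inl rfl
  · exact Or.inr rfl

lemma frob_eq (X : Curve) (v : HeightOneSpectrum (𝓞 X.K)) : ∀ k : ℕ, frob X v k = fr (trace X) (good X) v k ∧
    frob X v (k + 1) = fr (trace X) (good X) v (k + 1) := by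
  intro k
  induction k with
  | zero => exact ⟨rfl, rfl⟩
  | succ k ih =>
    refine ⟨ih.2, ?_⟩
    show trace X v * frob X v (k + 1) - good X v * frob X v k =
      trace X v * fr (trace X) (good X) v (k + 1) - good X v * fr (trace X) (good X) v k
    rw [ih.1, ih.2]

lemma power_eq {p : ℕ} {b : ℝ} {α : Fin 2 → ℂ} (h1 : α 0 + α 1 = b) (h2 : α 0 * α 1 = p) (k : ℕ) : ((power p b k : ℝ) : ℂ) = ∑ j, α j ^ k := by
  refine Pool.Agent.Q286.PG.seq_pow h1 h2 (t := fun k => ((power p b k : ℝ) : ℂ)) ?_ ?_ (fun k => ?_) k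
  · simp [power]
  · simp [power]
  · simp only [power]
    push_cast
    rfl

lemma good_eq (X : Curve) (v : HeightOneSpectrum (𝓞 X.K)) (h : (X.W v).Δ ∉ v.asIdeal) : good X v = (nrm v : ℂ) := by
  classical
  unfold good
  rw [if_neg h]

/-- the roots of the Euler factor at a good place, from the trivial bound for the number of points -/
lemma roots_lt {n : ℕ} (hn : 2 ≤ n) {t : ℂ} (ht : conj t = t) (htn : ‖t‖ ≤ n) :
    ∃ r : Fin 2 → ℂ, (∀ j, ‖r j‖ < n) ∧ r 0 + r 1 = t ∧ r 0 * r 1 = n := by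
  obtain ⟨b, rfl⟩ := Complex.conj_eq_iff_real.1 ht
  rw [Complex.norm_real, Real.norm_eq_abs] at htn
  have hn2 : (2 : ℝ) ≤ n := by exact_mod_cast hn
  rcases le_or_gt (b ^ 2) (4 * n) with h1 | h1
  · have h2 : |b| ≤ 2 * Real.sqrt n := by
      rw [← Real.sqrt_sq_eq_abs]
      calc Real.sqrt (b ^ 2) ≤ Real.sqrt (4 * n) := Real.sqrt_le_sqrt h1
        _ = 2 * Real.sqrt n := by
          rw [Real.sqrt_mul (by norm_num), show (4 : ℝ) = 2 ^ 2 by norm_num, Real.sqrt_sq (by norm_num)]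
    obtain ⟨r, h3, h4, h5⟩ := Pool.Agent.Q286.PG.two_roots (Nat.cast_nonneg n) h2
    refine ⟨r, fun j => ?_, h4, by rw [h5]; simp⟩
    rw [h3 j, Real.sqrt_lt' (by linarith)]
    nlinarith
  · set R : ℝ := Real.sqrt (b ^ 2 - 4 * n) with hR
    have hR2 : R ^ 2 = b ^ 2 - 4 * n := Real.sq_sqrt (by linarith)
    have hR0 : 0 ≤ R := Real.sqrt_nonneg _
    have hRb : R < |b| := by
      refine lt_of_pow_lt_pow_left₀ 2 (abs_nonneg b) ?_
      rw [hR2, sq_abs]
      linarith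
    have hb : ∀ s : ℝ, |s| = 1 → ‖(((b + s * R) / 2 : ℝ) : ℂ)‖ < n := by
      intro s hs
      rw [Complex.norm_real, Real.norm_eq_abs, abs_div, abs_of_pos (by norm_num : (0 : ℝ) < 2), div_lt_iff₀ (by norm_num)]
      calc |b + s * R| ≤ |b| + |s * R| := abs_add_le _ _
        _ = |b| + R := by rw [abs_mul, hs, one_mul, abs_of_nonneg hR0]
        _ < n * 2 := by linarith
    have hRc : (R : ℂ) * R = b * b - 4 * n := by
      have : R * R = b * b - 4 * n := by rw [← pow_two, hR2]; ring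
      exact_mod_cast this
    refine ⟨![(((b + 1 * R) / 2 : ℝ) : ℂ), (((b + (-1) * R) / 2 : ℝ) : ℂ)], fun j => ?_, ?_, ?_⟩
    · fin_cases j
      · exact hb 1 (by norm_num)
      · exact hb (-1) (by norm_num)
    · simp only [Matrix.cons_val_zero, Matrix.cons_val_one]
      push_cast
      ring
    · simp only [Matrix.cons_val_zero, Matrix.cons_val_one]
      push_cast
      have : ((b : ℂ) + 1 * R) / 2 * (((b : ℂ) + -1 * R) / 2) = (b * b - (R : ℂ) * R) / 4 := by ring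
      rw [this, hRc]
      ring

lemma two_le_nrm {K : Type} [Field K] [NumberField K] (v : HeightOneSpectrum (𝓞 K)) : 2 ≤ nrm v :=
  Pool.Agent.H921R2.TatePole.two_le_nm v

/-- the roots at a good place -/
lemma roots_place (X : Curve) (v : HeightOneSpectrum (𝓞 X.K)) (hv : (X.W v).Δ ∉ v.asIdeal) :
    ∃ r : Fin 2 → ℂ, (∀ j, ‖r j‖ < nrm v) ∧ r 0 + r 1 = trace X v ∧ ∀ k, frob X v k = ∑ j, r j ^ k := by
  obtain ⟨r, h1, h2, h3⟩ := roots_lt (two_le_nrm v) ((kl X).rea v) ((kl X).ha v)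
  refine ⟨r, h1, h2, fun k => ?_⟩
  refine Pool.Agent.Q286.PG.seq_pow h2 h3 (t := frob X v) rfl rfl (fun k => ?_) k
  show trace X v * frob X v (k + 1) - good X v * frob X v k = _
  rw [good_eq X v hv]

/-- a bound less than one for finitely many numbers less than one -/
lemma exists_rho {ι : Type*} (S : Finset ι) (u : ι → ℝ) (hu : ∀ i ∈ S, u i < 1) (ρ0 : ℝ) (h0 : ρ0 < 1) :
    ∃ ρ : ℝ, ρ < 1 ∧ ρ0 ≤ ρ ∧ ∀ i ∈ S, u i ≤ ρ := by
  classical
  induction S using Finset.induction_on with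
  | empty => exact ⟨ρ0, h0, le_rfl, fun i hi => absurd hi (Finset.notMem_empty i)⟩
  | insert i S hi ih =>
    obtain ⟨ρ, h1, h2, h3⟩ := ih fun j hj => hu j (Finset.mem_insert_of_mem hj)
    refine ⟨max ρ (u i), max_lt h1 (hu i (Finset.mem_insert_self _ _)), h2.trans (le_max_left _ _), fun j hj => ?_⟩
    rcases Finset.mem_insert.1 hj with rfl | hj
    · exact le_max_right _ _
    · exact (h3 j hj).trans (le_max_left _ _)

open Pool.Agent.Q286 in
lemma outE (X : Curve) : PG.OutP (V X) X.A (RiemannHypothesis X) 1 (fun a => Real.exp (a / X.deg))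
    (4 * Real.pi * X.deg * X.A ^ (-(1 / (2 * (X.deg : ℝ))))) := by
  obtain ⟨L, hm, hQ, h1, h2, k, hk, h3⟩ := exK2 (kl X) (good_or X)
  have hW : ∀ (a : ℝ) (g : ℝ → ℂ), W X a g = TR.W L a g := fun a g => by
    rw [h1]
    unfold W WK
    congr 1
    refine congrArg (fun z : ℂ => 2 * z.re) ?_
    refine finsum_mem_congr rfl fun x _ => ?_
    rw [(frob_eq X x.1 x.2).1]
    rfl
  have H := PG.outP (L := L) PG.jp PG.pw (V := V X) (Q0 := X.A) (R := RiemannHypothesis X) (c := 1) hQ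
    (TR.rh_iff (L := L) (Λ := X.Λ) (c := 1) (r := 1) (by norm_num) hk h3).symm
    (fun Q x a f _ _ _ => by
      have e1 : Real.log (Q / X.A) = -Real.log (X.A / Q) := by rw [← Real.log_inv, inv_div]
      unfold V PG.Vx
      rw [hW, e1]
      unfold TR.N PG.Cr
      ring)
  have hd : (L.m : ℝ) = 2 * (X.deg : ℝ) := by
    rw [hm]
    unfold Curve.deg
    push_cast
    ring
  have e1 : PG.EE L = fun a => Real.exp (a / X.deg) := by
    funext a
    unfold PG.EE
    rw [hd, mul_div_mul_left _ _ two_ne_zero]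
  have e2 : PG.qq L = 4 * Real.pi * X.deg * X.A ^ (-(1 / (2 * (X.deg : ℝ)))) := by
    unfold PG.qq
    rw [hd, hQ]
    ring
  rw [e1, e2] at H
  exact H

open Pool.Agent.Q286 in
lemma outEE (hE : EW.S_EffU) (X : Curve) : EW.OutE (V X) X.A (fun s => X.Λ s = 0) 1 1 (fun a => Real.exp (a / X.deg))
    (4 * Real.pi * X.deg * X.A ^ (-(1 / (2 * (X.deg : ℝ))))) (2 * Real.pi * X.A ^ (-(1 / (2 * (X.deg : ℝ))))) := by
  obtain ⟨L, hm, hQ, h1, h2, k, hk, h3⟩ := exK2 (kl X) (good_or X)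
  have hW : ∀ (a : ℝ) (g : ℝ → ℂ), W X a g = TR.W L a g := fun a g => by
    rw [h1]
    unfold W WK
    congr 1
    refine congrArg (fun z : ℂ => 2 * z.re) ?_
    refine finsum_mem_congr rfl fun x _ => ?_
    rw [(frob_eq X x.1 x.2).1]
    rfl
  have H := EW.outE (L := L) hE PG.jp PG.pw (V := V X) (Q0 := X.A) (Z := fun s => X.Λ s = 0) (R := RiemannHypothesis X) (r := 1) (c := 1) hQ
    (TR.rh_iff (L := L) (Λ := X.Λ) (c := 1) (r := 1) (by norm_num) hk h3).symm
    (fun s hs => by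
      refine ⟨s - (((1 : ℝ) - 1 / 2 : ℝ) : ℂ), ?_, ?_, ?_⟩
      · have e : s - (((1 : ℝ) - 1 / 2 : ℝ) : ℂ) + (1 - 1 / 2) = s := by
          push_cast
          ring
        rw [h3, e, hs, mul_zero]
      · rw [Complex.sub_im, Complex.ofReal_im, sub_zero]
      · rw [Complex.sub_re, Complex.ofReal_re]
        ring)
    (fun Q x a f _ _ _ => by
      have e1 : Real.log (Q / X.A) = -Real.log (X.A / Q) := by rw [← Real.log_inv, inv_div]
      unfold V PG.Vx
      rw [hW, e1]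
      unfold TR.N PG.Cr
      ring)
  have hd : (L.m : ℝ) = 2 * (X.deg : ℝ) := by
    rw [hm]
    unfold Curve.deg
    push_cast
    ring
  have e1 : PG.EE L = fun a => Real.exp (a / X.deg) := by
    funext a
    unfold PG.EE
    rw [hd, mul_div_mul_left _ _ two_ne_zero]
  have e2 : PG.qq L = 4 * Real.pi * X.deg * X.A ^ (-(1 / (2 * (X.deg : ℝ)))) := by
    unfold PG.qq
    rw [hd, hQ]
    ring
  have e3 : EW.hh L = 2 * Real.pi * X.A ^ (-(1 / (2 * (X.deg : ℝ)))) := by
    unfold EW.hh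
    rw [hd, hQ]
  rw [e1, e2, e3] at H
  exact H

open Pool.Agent.Q286 in
/-- the places, and the finite changes -/
lemma places (hE : EW.S_EffU) (X : Curve) {c h : ℝ} (hc : c < 4 * Real.pi * X.deg * X.A ^ (-(1 / (2 * (X.deg : ℝ)))))
    (hh : h < 2 * Real.pi * X.A ^ (-(1 / (2 * (X.deg : ℝ))))) : ∃ C κ : ℝ, 0 < C ∧ 0 < κ ∧
    (∀ S : Finset (HeightOneSpectrum (𝓞 X.K)), Separated X S → ∃ K A : ℝ, ∀ (a : ℝ) (ν : ℕ∞), A ≤ a →
      Large (C * a * Real.exp (a / X.deg)) ν →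
      ∀ (Q : ℝ) (b : HeightOneSpectrum (𝓞 X.K) → ℝ), 0 < Q → (∀ v ∈ S, |b v| ≤ 2 * Real.sqrt (nrm v)) → Nonneg X a ν Q (change X S b) →
        Real.log (X.A / Q) ≤ Real.exp (-(c * Real.exp (a / X.deg))) ∧
        (∀ v ∈ S, ‖(b v : ℂ) - trace X v‖ ≤ K * max 0 (Real.log (Q / X.A)) + Real.exp (-(c * Real.exp (a / X.deg)))) ∧
        ∀ Y : ℝ, Y ≤ Real.exp (a / X.deg) → Real.log (Q / X.A) ≤ Real.exp (-Y) →
          ∀ s : ℂ, X.Λ s = 0 → |s.im| ≤ h * Real.exp (a / X.deg) → |s.re - 1| ≤ 2 * Real.exp (-(κ * Y / a))) ∧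
    ∀ k : ℕ, ∃ K A : ℝ, ∀ (a : ℝ) (ν : ℕ∞), A ≤ a → Large (C * a * Real.exp (a / X.deg)) ν →
      ∀ (Q : ℝ) (x : ℕ → ℂ), 0 < Q → (∀ n, k < n → x n = 0) → Nonneg X a ν Q x →
        Real.log (X.A / Q) ≤ Real.exp (-(c * Real.exp (a / X.deg))) ∧
        (∀ n, 2 ≤ n → n ≤ k → ‖x n‖ ≤ K * max 0 (Real.log (Q / X.A)) + Real.exp (-(c * Real.exp (a / X.deg)))) ∧
        ∀ Y : ℝ, Y ≤ Real.exp (a / X.deg) → Real.log (Q / X.A) ≤ Real.exp (-Y) →
          ∀ s : ℂ, X.Λ s = 0 → |s.im| ≤ h * Real.exp (a / X.deg) → |s.re - 1| ≤ 2 * Real.exp (-(κ * Y / a)) := by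
  classical
  have hdeg : (0 : ℝ) < X.deg := by
    have : 0 < Module.finrank ℚ X.K := Module.finrank_pos
    exact_mod_cast this
  obtain ⟨C, κ, hC, hκ, h0, h⟩ := EW.OutE.eul (outEE hE X) (Real.tendsto_exp_atTop.comp (tendsto_id.atTop_div_const hdeg))
    (fun a => Real.exp_pos _) hc hh
  refine ⟨C, κ, hC, hκ, fun S hS => ?_, fun k => ?_⟩
  swap
  · obtain ⟨K, A, -, h1⟩ := h0 k
    exact ⟨K, A, h1⟩
  obtain ⟨hgood, hcop⟩ := hS
  have hlog : ∀ v : HeightOneSpectrum (𝓞 X.K), 0 < Real.log (nrm v) := fun v =>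
    Real.log_pos (by exact_mod_cast (by have := two_le_nrm v; omega : 1 < nrm v))
  set T : ℝ := ∑ v ∈ S, (nrm v : ℝ) / Real.log (nrm v) with hT
  have hTp : ∀ v ∈ S, (nrm v : ℝ) / Real.log (nrm v) ≤ T := fun v hv =>
    Finset.single_le_sum (f := fun v : HeightOneSpectrum (𝓞 X.K) => (nrm v : ℝ) / Real.log (nrm v))
      (fun w _ => div_nonneg (Nat.cast_nonneg _) (hlog w).le) hv
  have hρ0 : (Real.sqrt 2)⁻¹ < 1 := inv_lt_one_of_one_lt₀ (Real.lt_sqrt_of_sq_lt (by norm_num))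
  -- the roots
  have hα : ∀ v ∈ S, ∃ r : Fin 2 → ℂ, (∀ j, ‖r j‖ < nrm v) ∧ r 0 + r 1 = trace X v ∧ ∀ k, frob X v k = ∑ j, r j ^ k :=
    fun v hv => roots_place X v (hgood v hv)
  choose! α hα1 hα2 hα3 using hα
  have hn0 : ∀ v : HeightOneSpectrum (𝓞 X.K), (0 : ℝ) < nrm v := fun v => by
    exact_mod_cast (by have := two_le_nrm v; omega : 0 < nrm v)
  obtain ⟨ρ, hρ, hρ1, hρ2⟩ := exists_rho (S ×ˢ (Finset.univ : Finset (Fin 2))) (fun x => ‖α x.1 x.2‖ / nrm x.1)
    (fun x hx => by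
      rw [div_lt_one (hn0 x.1)]
      exact hα1 x.1 (Finset.mem_product.1 hx).1 x.2) _ hρ0
  -- the place of a given norm
  have huniq : ∀ v ∈ S, ∀ w ∈ S, ∀ k l : ℕ, 1 ≤ k → nrm v ^ k = nrm w ^ l → v = w := by
    intro v hv w hw k l hk he
    by_contra hne
    have h1 : Nat.Coprime (nrm v ^ k) (nrm w ^ l) := Nat.Coprime.pow k l (hcop v hv w hw hne)
    rw [← he, Nat.coprime_self] at h1
    have h2 := Nat.one_lt_pow (by omega : k ≠ 0) (by have := two_le_nrm v; omega : 1 < nrm v)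
    omega
  have hpl : ∀ n ∈ S.image nrm, ∃ v, v ∈ S ∧ nrm v = n := fun n hn => by
    obtain ⟨v, hv, h1⟩ := Finset.mem_image.1 hn
    exact ⟨v, hv, h1⟩
  have hne : Nonempty (HeightOneSpectrum (𝓞 X.K)) := by
    obtain ⟨I, hI⟩ := Ideal.exists_maximal (𝓞 X.K)
    exact ⟨⟨I, hI.isPrime, Ring.ne_bot_of_isMaximal_of_not_isField hI (NumberField.RingOfIntegers.not_isField X.K)⟩⟩
  choose! pl hpl1 hpl2 using hpl
  have hplv : ∀ v ∈ S, pl (nrm v) = v := fun v hv => by
    have h1 := hpl1 (nrm v) (Finset.mem_image_of_mem _ hv)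
    have h2 := hpl2 (nrm v) (Finset.mem_image_of_mem _ hv)
    exact huniq _ h1 v hv 1 1 le_rfl (by rw [h2])
  obtain ⟨K, A, hK, h1⟩ := h (S.image nrm) (fun p hp => by
    obtain ⟨v, _, rfl⟩ := Finset.mem_image.1 hp
    exact two_le_nrm v) 2 ρ hρ T (Finset.sum_nonneg fun v _ => div_nonneg (Nat.cast_nonneg _) (hlog v).le)
  refine ⟨K, A, fun a ν ha hν Q b hQ hb hp => ?_⟩
  have hβ : ∀ v ∈ S, ∃ α : Fin 2 → ℂ, (∀ j, ‖α j‖ = Real.sqrt (nrm v)) ∧ α 0 + α 1 = b v ∧ α 0 * α 1 = (nrm v : ℝ) := fun v hv =>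
    PG.two_roots (Nat.cast_nonneg (nrm v)) (hb v hv)
  choose! β hβ1 hβ2 hβ3 using hβ
  have hnβ : ∀ v ∈ S, ∀ j, ‖β v j / nrm v‖ ≤ ρ := by
    intro v hv j
    have hp2 : (2 : ℝ) ≤ nrm v := by exact_mod_cast two_le_nrm v
    have hs : 0 < Real.sqrt (nrm v) := Real.sqrt_pos.2 (by linarith)
    have e1 : ‖(nrm v : ℂ)‖ = Real.sqrt (nrm v) * Real.sqrt (nrm v) := by
      rw [Complex.norm_natCast, Real.mul_self_sqrt (by linarith)]
    rw [norm_div, hβ1 v hv j, e1, div_mul_cancel_left₀ hs.ne']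
    exact (inv_anti₀ (Real.sqrt_pos.2 (by norm_num)) (Real.sqrt_le_sqrt hp2)).trans hρ1
  have hnα : ∀ v ∈ S, ∀ j, ‖α v j / nrm v‖ ≤ ρ := by
    intro v hv j
    rw [norm_div, Complex.norm_natCast]
    exact hρ2 (v, j) (Finset.mem_product.2 ⟨hv, Finset.mem_univ _⟩)
  have hx : ∀ v ∈ S, ∀ k, 1 ≤ k → change X S b (nrm v ^ k) =
      Real.log (nrm v) * (∑ j, (β v j / nrm v) ^ k - ∑ j, (α v j / nrm v) ^ k) := by
    intro v hv k hk
    have hp0 : (nrm v : ℂ) ≠ 0 := by exact_mod_cast (hn0 v).ne'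
    have h2 : 2 ≤ nrm v ^ k := (two_le_nrm v).trans (Nat.le_self_pow (by omega) _)
    have hl : Nat.log (nrm v) (nrm v ^ k) = k := Nat.log_pow (by have := two_le_nrm v; omega) k
    unfold change
    rw [Finset.sum_eq_single_of_mem v hv]
    · rw [hl, if_pos ⟨h2, rfl⟩, power_eq (hβ2 v hv) (by rw [hβ3 v hv]; simp) k, hα3 v hv k]
      simp only [div_pow, ← Finset.sum_div]
      push_cast
      field_simp
    · intro w hw hne
      rw [if_neg]
      rintro ⟨_, he⟩
      exact hne (huniq v hv w hw k _ hk he).symm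
  obtain ⟨h2, h3, h4⟩ := h1 a ν ha hν Q (change X S b) (fun n j => α (pl n) j / nrm (pl n)) (fun n j => β (pl n) j / nrm (pl n)) hQ
    (fun n hn j => ⟨hnα _ (hpl1 n hn) j, hnβ _ (hpl1 n hn) j⟩)
    (fun n hn hn2 => by
      unfold change
      refine Finset.sum_eq_zero fun v hv => ?_
      rw [if_neg]
      rintro ⟨_, he⟩
      exact hn2 (nrm v) (Finset.mem_image_of_mem _ hv) _ he)
    (fun n hn k hk => by
      obtain ⟨v, hv, rfl⟩ := Finset.mem_image.1 hn
      rw [hx v hv k hk, hplv v hv]) hp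
  refine ⟨h2, fun v hv => le_trans ?_ (h3 (nrm v) (Finset.mem_image_of_mem _ hv) 1 le_rfl), h4⟩
  have hl := hlog v
  have hp0 : (nrm v : ℂ) ≠ 0 := by exact_mod_cast (hn0 v).ne'
  have hp1 : (0 : ℝ) < nrm v := hn0 v
  have e1 : change X S b (nrm v ^ 1) = (Real.log (nrm v) / nrm v : ℝ) * ((b v : ℂ) - trace X v) := by
    rw [hx v hv 1 le_rfl]
    simp only [pow_one, ← Finset.sum_div, Fin.sum_univ_two]
    rw [hα2 v hv, hβ2 v hv]
    push_cast
    field_simp
  rw [e1, norm_mul, Complex.norm_real, Real.norm_of_nonneg (div_nonneg hl.le hp1.le), ← mul_assoc]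
  refine le_mul_of_one_le_left (norm_nonneg _) ?_
  calc (1 : ℝ) = (nrm v : ℝ) / Real.log (nrm v) * (Real.log (nrm v) / nrm v) := by field_simp
    _ ≤ _ := mul_le_mul_of_nonneg_right (hTp v hv) (div_nonneg hl.le hp1.le)

lemma A_pos (X : Curve) : 0 < X.A := lt_of_lt_of_le one_pos X.hasseWeil.one_le

/-- the form with the conductor `A exp d` -/
lemma V_zero (X : Curve) {d : ℝ} {a : ℝ} (f : ℝ → ℂ) :
    V X (X.A * Real.exp d) (fun _ => 0) a f = W X a f + d * (∫ y : ℝ, ‖f y‖ ^ 2) := by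
  unfold V
  rw [mul_div_assoc, mul_comm X.A, div_mul_cancel₀ _ (A_pos X).ne', Real.log_exp]
  simp

/-- **The theorem.** -/
theorem result (X : Curve) :
    (∀ c h : ℝ, c < 4 * Real.pi * X.deg * X.A ^ (-(1 / (2 * (X.deg : ℝ)))) → h < 2 * Real.pi * X.A ^ (-(1 / (2 * (X.deg : ℝ)))) →
      ∃ C κ : ℝ, 0 < C ∧ 0 < κ ∧
      (∃ A : ℝ, ∀ (a Y : ℝ) (ν : ℕ∞), A ≤ a → Y ≤ Real.exp (a / X.deg) → Large (C * a * Real.exp (a / X.deg)) ν →
        (∀ f : ℝ → ℂ, Degree a ν f → -(Real.exp (-Y) * ∫ y : ℝ, ‖f y‖ ^ 2) ≤ W X a f) →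
          ∀ s : ℂ, X.Λ s = 0 → |s.im| ≤ h * Real.exp (a / X.deg) → |s.re - 1| ≤ 2 * Real.exp (-(κ * Y / a))) ∧
      (∀ S : Finset (HeightOneSpectrum (𝓞 X.K)), Separated X S → ∃ K A : ℝ, ∀ (a : ℝ) (ν : ℕ∞), A ≤ a →
        Large (C * a * Real.exp (a / X.deg)) ν →
        ∀ (Q : ℝ) (b : HeightOneSpectrum (𝓞 X.K) → ℝ), 0 < Q → (∀ v ∈ S, |b v| ≤ 2 * Real.sqrt (nrm v)) → Nonneg X a ν Q (change X S b) →
          Real.log (X.A / Q) ≤ Real.exp (-(c * Real.exp (a / X.deg))) ∧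
          (∀ v ∈ S, ‖(b v : ℂ) - trace X v‖ ≤ K * max 0 (Real.log (Q / X.A)) + Real.exp (-(c * Real.exp (a / X.deg)))) ∧
          ∀ Y : ℝ, Y ≤ Real.exp (a / X.deg) → Real.log (Q / X.A) ≤ Real.exp (-Y) →
            ∀ s : ℂ, X.Λ s = 0 → |s.im| ≤ h * Real.exp (a / X.deg) → |s.re - 1| ≤ 2 * Real.exp (-(κ * Y / a))) ∧
      ∀ k : ℕ, ∃ K A : ℝ, ∀ (a : ℝ) (ν : ℕ∞), A ≤ a → Large (C * a * Real.exp (a / X.deg)) ν →
        ∀ (Q : ℝ) (x : ℕ → ℂ), 0 < Q → (∀ n, k < n → x n = 0) → Nonneg X a ν Q x →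
          Real.log (X.A / Q) ≤ Real.exp (-(c * Real.exp (a / X.deg))) ∧
          (∀ n, 2 ≤ n → n ≤ k → ‖x n‖ ≤ K * max 0 (Real.log (Q / X.A)) + Real.exp (-(c * Real.exp (a / X.deg)))) ∧
          ∀ Y : ℝ, Y ≤ Real.exp (a / X.deg) → Real.log (Q / X.A) ≤ Real.exp (-Y) →
            ∀ s : ℂ, X.Λ s = 0 → |s.im| ≤ h * Real.exp (a / X.deg) → |s.re - 1| ≤ 2 * Real.exp (-(κ * Y / a))) ∧
    ∃ C : ℝ, 0 < C ∧
      (∀ (B ε : ℝ) (k : ℕ), 0 < ε → ∃ A δ : ℝ, 0 < δ ∧ ∀ (a : ℝ) (ν : ℕ∞), A ≤ a → Large (C * a * Real.exp (a / X.deg)) ν →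
        ∀ (Q : ℝ) (x : ℕ → ℂ), 0 < Q → Real.log (Q / X.A) ≤ δ → ∑ n ∈ Finset.Icc 2 ⌊Real.exp (2 * a)⌋₊, ‖x n‖ ≤ B → Nonneg X a ν Q x →
          Real.log (X.A / Q) ≤ ε ∧ ∀ n, 2 ≤ n → n ≤ k → ‖x n‖ ≤ ε) ∧
      (∀ (Q : ℝ) (x : ℕ → ℂ), 0 < Q → Q ≤ X.A → (Summable fun n => ‖x n‖) →
        ((∀ A : ℝ, ∃ (a : ℝ) (ν : ℕ∞), A ≤ a ∧ Large (C * a * Real.exp (a / X.deg)) ν ∧ Nonneg X a ν Q x) ↔
          RiemannHypothesis X ∧ Q = X.A ∧ ∀ n, 2 ≤ n → x n = 0)) ∧
      (RiemannHypothesis X ↔ ∀ ε : ℝ, 0 < ε → ∀ A : ℝ, ∃ (a : ℝ) (ν : ℕ∞) (Q : ℝ) (x : ℕ → ℂ), A ≤ a ∧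
        Large (C * a * Real.exp (a / X.deg)) ν ∧ 0 < Q ∧ Real.log (Q / X.A) ≤ Real.exp (ε * a) ∧
        ∑ n ∈ Finset.Icc 2 ⌊Real.exp (2 * a)⌋₊, ‖x n‖ ≤ Real.exp (ε * a) ∧ Nonneg X a ν Q x) ∧
      ∀ (k : ℕ) (B : ℝ), X.A ≤ B → (RiemannHypothesis X ↔ ∀ A : ℝ, ∃ (a : ℝ) (ν : ℕ∞) (Q : ℝ) (x : ℕ → ℂ), A ≤ a ∧
        Large (C * a * Real.exp (a / X.deg)) ν ∧ 0 < Q ∧ Q ≤ B ∧ (∀ n, k < n → x n = 0) ∧ Nonneg X a ν Q x) := by
  refine ⟨fun c h hc hh => ?_, (outE X).bnd⟩
  obtain ⟨C, κ, hC, hκ, h1, h2⟩ := places Pool.Agent.Q286.EW.effU_all X hc hh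
  refine ⟨C, κ, hC, hκ, ?_, h1, h2⟩
  obtain ⟨K, A, h3⟩ := h2 0
  have hA := A_pos X
  refine ⟨A, fun a Y ν ha hY hν hp => ?_⟩
  refine (h3 a ν ha hν (X.A * Real.exp (Real.exp (-Y))) (fun _ => 0) (by positivity) (fun _ _ => rfl) (fun f hf => ?_)).2.2 Y hY ?_
  · rw [V_zero]
    linarith [hp f hf]
  · rw [mul_div_assoc, mul_comm X.A, div_mul_cancel₀ _ hA.ne', Real.log_exp]

end Pool.Agent.Results.MP_fb225e_nt.EffectiveCriterion
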