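import Pool.Agent.Q286.XG.AllN
import Pool.Agent.Q286.XG.EK2
import Pool.Agent.Q240.OW.K3

/-!
# Extremal functions of Weil's quadratic form of an elliptic curve over a number field, of all degrees

Let `E` be an elliptic curve over a number field `K` of degree `d`, for which the properties conjectured by Hasse and Weil hold
(`Λ(E/K, s)` entire, of finite order, `Λ(s) = ± Λ(2 - s)`), with conductor `A` (of the L-function).  Let `W_a` be Weil's quadratic form
of `E/K` on the functions on `[-a, a]`, written through the conductor, the archimedean places and the traces of Frobenius at the places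
with `Nv^k ≤ exp (2 a)`.  Let `M f s = ∫ f(x) exp ((s - 1) x) dx`.  An extremal function of degree `ν` minimises `W_a` under the
condition `M f 1 = 1`, among the trigonometric polynomials of degree at most `ν` on `[-a, a]`, or (`ν = ∞`) among all functions in the
form domain of `W_a`: then there is no truncation, and only the length of the interval remains.

Assume the Riemann hypothesis for `E/K`, and let `r` be the analytic rank of `E/K` and
`Xred s = ∏ (1 - ((s - 1) / (ρ - 1))²)` the product over the distinct zeros in the upper half plane.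

* For every `a > 0` and every degree `ν ≤ ∞` there is exactly one extremal function `f`; it is even and real, and all zeros of `M f`
  are on the line `Re s = 1`.
* The smallest value `W_a f` is larger than the analytic rank `r`, and tends to it: `W_a f ≤ r + exp (- b a² log a)` for every `b` and all
  degrees `ν ≥ K(b) a²`.
* `M f` tends to `Xred`, locally uniformly, and every zero of `Xred` is within `exp (- b a² log a)` of a zero of `M f`.
* For the degrees `ν ≥ K(b) a exp (a / d)` (in particular for `ν = ∞`) the accuracy is doubly exponential: the distances to the rank and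
  to the zeros are at most `exp (- b exp (a / d))` for every `b < 4 π d A^(-1 / (2 d))`.

If the Riemann hypothesis for `E/K` fails there is no extremal function for large `a`, in any degree `n(a)` with `n(a) / a → ∞`: the form
is not bounded from below under the condition `M f 1 = 1`.  So the Riemann hypothesis for `E/K` holds if and only if there are extremal
functions for arbitrarily large `a`, in the degrees `n(a)`, and also if and only if there are for `ν = ∞`.
-/

set_option autoImplicit false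

open Complex NumberField IsDedekindDomain MeasureTheory Filter Topology
open scoped ComplexConjugate

namespace Pool.Agent.Results.MP_fb225e_nt.ExtremalFunctions

/-! ### Hasse-Weil L-functions of elliptic curves over number fields -/

/-- `W v` is, for every finite place `v`, an integral model of `E` with discriminant minimal at
`v`. -/
def MinimalModels {K : Type} [Field K] [NumberField K] (E : WeierstrassCurve K)
    (W : HeightOneSpectrum (𝓞 K) → WeierstrassCurve (𝓞 K)) : Prop :=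
  ∀ v : HeightOneSpectrum (𝓞 K),
    (∃ C : WeierstrassCurve.VariableChange K, C • (W v).map (algebraMap (𝓞 K) K) = E) ∧
    ∀ W' : WeierstrassCurve (𝓞 K),
      (∃ C : WeierstrassCurve.VariableChange K, C • W'.map (algebraMap (𝓞 K) K) = E) →
      ∀ n : ℕ, (W v).Δ ∈ v.asIdeal ^ n → W'.Δ ∈ v.asIdeal ^ n

open Classical in
/-- The Euler factor at `v`, `(1 - a_v Nv^{-s} + Nv^{1-2s})⁻¹` if the reduction at `v` is good and
`(1 - a_v Nv^{-s})⁻¹` if it is bad, where `a_v` is `Nv` minus the number of affine points of the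
reduction of `W v`. -/
noncomputable def localFactor {K : Type} [Field K] [NumberField K]
    (W : HeightOneSpectrum (𝓞 K) → WeierstrassCurve (𝓞 K)) (v : HeightOneSpectrum (𝓞 K))
    (s : ℂ) : ℂ :=
  (1 - ((Ideal.absNorm v.asIdeal : ℂ)
        - (Nat.card {xy : (𝓞 K ⧸ v.asIdeal) × (𝓞 K ⧸ v.asIdeal) //
            ((W v).map (Ideal.Quotient.mk v.asIdeal)).toAffine.Equation xy.1 xy.2} : ℂ))
        * (Ideal.absNorm v.asIdeal : ℂ) ^ (-s)
    + (if (W v).Δ ∈ v.asIdeal then 0 else (Ideal.absNorm v.asIdeal : ℂ))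
        * (Ideal.absNorm v.asIdeal : ℂ) ^ (-2 * s))⁻¹

/-- The `L`-function `L(E/K, s)` in the half-plane of convergence, as the Euler product over all
finite places. -/
noncomputable def LSeries {K : Type} [Field K] [NumberField K]
    (W : HeightOneSpectrum (𝓞 K) → WeierstrassCurve (𝓞 K)) (s : ℂ) : ℂ :=
  ∏' v : HeightOneSpectrum (𝓞 K), localFactor W v s

/-- `Λ` is the completed L-function `A^(s/2) ((2π)^(-s) Γ(s))^[K : ℚ] L(E/K, s)`, and it has the
properties conjectured by Hasse and Weil: it is entire, of finite order, and `Λ(s) = ± Λ(2 - s)`. -/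
structure HasseWeil {K : Type} [Field K] [NumberField K]
    (W : HeightOneSpectrum (𝓞 K) → WeierstrassCurve (𝓞 K)) (A : ℝ) (Λ : ℂ → ℂ) : Prop where
  one_le : 1 ≤ A
  entire : Differentiable ℂ Λ
  order : ∃ c ρ : ℝ, ∀ s : ℂ, ‖Λ s‖ ≤ Real.exp (c * (1 + ‖s‖) ^ ρ)
  fe : ∃ w : ℝ, (w = 1 ∨ w = -1) ∧ ∀ s : ℂ, Λ s = w * Λ (2 - s)
  eq : ∃ σ : ℝ, ∀ s : ℂ, σ ≤ s.re → Λ s = (A : ℂ) ^ (s / 2) *
    ((2 * (Real.pi : ℂ)) ^ (-s) * Gamma s) ^ Module.finrank ℚ K * LSeries W s

/-- An elliptic curve `E` over a number field `K` (for the problem: defined over `ℚ`), with minimal models, the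
conductor `A` of its L-function and the completed L-function `Λ`, with the properties conjectured by Hasse and
Weil. -/
structure Curve where
  /-- the number field -/
  K : Type
  [field : Field K]
  [numberField : NumberField K]
  /-- the elliptic curve -/
  E : WeierstrassCurve K
  [elliptic : E.IsElliptic]
  /-- minimal models -/
  W : HeightOneSpectrum (𝓞 K) → WeierstrassCurve (𝓞 K)
  minimal : MinimalModels E W
  /-- the conductor -/
  A : ℝ
  /-- the completed L-function -/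
  Λ : ℂ → ℂ
  hasseWeil : HasseWeil W A Λ

attribute [instance] Curve.field Curve.numberField Curve.elliptic

/-- The degree of the number field. -/
noncomputable def Curve.deg (X : Curve) : ℕ := Module.finrank ℚ X.K

/-- The norm `Nv` of a finite place. -/
noncomputable def nrm {K : Type} [Field K] [NumberField K] (v : HeightOneSpectrum (𝓞 K)) : ℕ := Ideal.absNorm v.asIdeal

/-- The coefficient `a_v`: `Nv` minus the number of affine points of the reduction of the minimal model at `v`. -/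
noncomputable def trace (X : Curve) (v : HeightOneSpectrum (𝓞 X.K)) : ℂ :=
  (nrm v : ℂ) - (Nat.card {xy : (𝓞 X.K ⧸ v.asIdeal) × (𝓞 X.K ⧸ v.asIdeal) //
    ((X.W v).map (Ideal.Quotient.mk v.asIdeal)).toAffine.Equation xy.1 xy.2} : ℂ)

open Classical in
/-- `Nv` if the reduction at `v` is good and `0` if it is bad. -/
noncomputable def good (X : Curve) (v : HeightOneSpectrum (𝓞 X.K)) : ℂ := if (X.W v).Δ ∈ v.asIdeal then 0 else (nrm v : ℂ)

/-- The traces of the powers of Frobenius at `v`: `t_k = α^k + β^k` (`k ≥ 1`), where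
`1 - a_v T + Nv T² = (1 - α T)(1 - β T)` if the reduction is good and `1 - a_v T = 1 - α T`, `β = 0` if it is bad. -/
noncomputable def frob (X : Curve) (v : HeightOneSpectrum (𝓞 X.K)) : ℕ → ℂ
  | 0 => 2
  | 1 => trace X v
  | k + 2 => trace X v * frob X v (k + 1) - good X v * frob X v k

/-- The Riemann hypothesis for `E/K`: all zeros of `Λ(E/K, s)` have real part `1`. -/
def RiemannHypothesis (X : Curve) : Prop := ∀ s : ℂ, X.Λ s = 0 → s.re = 1

/-! ### The quadratic form and the extremal functions -/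

/-- The trigonometric polynomials of degree at most `n` on `[-a, a]`, extended by `0`. -/
def Trig (a : ℝ) (n : ℕ) (f : ℝ → ℂ) : Prop := ∃ c : ℤ → ℂ, ∀ x : ℝ,
  f x = if |x| ≤ a then ∑ k ∈ Finset.Icc (-(n : ℤ)) n, c k * cexp ((Real.pi * k * x / a : ℝ) * I) else 0

/-- The Mellin transform of `f` in the logarithmic variable, centred at `1`. -/
noncomputable def M (f : ℝ → ℂ) (s : ℂ) : ℂ := ∫ x : ℝ, f x * cexp ((s - 1) * x)

/-- Weil's quadratic form of `E/K` for functions supported in `[-a, a]`: the conductor, the archimedean places (Gamma factor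
`((2π)^(-s) Γ(s))^[K : ℚ]`) and the powers `Nv^k ≤ exp (2 a)` (`k ≥ 1`) of the norms of the finite places. -/
noncomputable def W (X : Curve) (a : ℝ) (f : ℝ → ℂ) : ℝ :=
  1 / (2 * Real.pi) * (∫ x : ℝ, (Real.log X.A + X.deg * (2 * (digamma (1 + x * I)).re - 2 * Real.log (2 * Real.pi))) *
    ‖M f (1 + x * I)‖ ^ 2) -
  2 * (∑ᶠ x ∈ {x : HeightOneSpectrum (𝓞 X.K) × ℕ | 1 ≤ x.2 ∧ (nrm x.1 : ℝ) ^ x.2 ≤ Real.exp (2 * a)},
    Real.log (nrm x.1) / (nrm x.1 : ℂ) ^ x.2 * frob X x.1 x.2 *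
    ∫ y : ℝ, f (y + x.2 * Real.log (nrm x.1)) * (starRingEnd ℂ) (f y)).re

/-- The reduced function: the product over the distinct zeros of `Λ(E/K, s)` in the upper half plane. -/
noncomputable def Xred (X : Curve) (s : ℂ) : ℂ :=
  ∏' ρ : {ρ : ℂ // X.Λ ρ = 0 ∧ 0 < ρ.im}, (1 - (s - 1) ^ 2 / ((ρ : ℂ) - 1) ^ 2)

/-- The form domain: the square integrable functions `f` with support in `[-a, a]` and `∫ log (3 + |t|) |M f (1 + i t)|² dt < ∞`. -/
def FormDomain (a : ℝ) (f : ℝ → ℂ) : Prop := MemLp f 2 volume ∧ (∀ x : ℝ, a < |x| → f x = 0) ∧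
  Integrable fun t : ℝ => Real.log (3 + |t|) * ‖M f (1 + t * I)‖ ^ 2

/-- The functions of degree at most `ν ≤ ∞`: trigonometric polynomials, or (`ν = ∞`) all functions in the form domain. -/
def Degree (a : ℝ) (ν : ℕ∞) (f : ℝ → ℂ) : Prop := (∃ n : ℕ, ν = n ∧ Trig a n f) ∨ (ν = ⊤ ∧ FormDomain a f)

/-- `f` is an extremal function of degree `ν`: it minimises Weil's form under the condition `M f 1 = 1`. -/
def Extremal (X : Curve) (a : ℝ) (ν : ℕ∞) (f : ℝ → ℂ) : Prop :=
  Degree a ν f ∧ M f 1 = 1 ∧ ∀ g : ℝ → ℂ, Degree a ν g → M g 1 = 1 → W X a f ≤ W X a g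

/-- The analytic rank: the order of the zero of `Λ(E/K, s)` at `s = 1`. -/
noncomputable def rank (X : Curve) : ℕ := analyticOrderNatAt X.Λ 1

/-- The degree `ν ≤ ∞` is at least `x`. -/
def Large (x : ℝ) (ν : ℕ∞) : Prop := ∀ n : ℕ, ν = n → x ≤ n

/-! ### The proof -/

open Q240.OW Pool.Agent.TH839.UH Pool.Agent.Q286.TR
open Pool.Agent.H921R2.TatePole (nm)

lemma EL_eq (X : Curve) (s : ℂ) : EL (trace X) (good X) s = LSeries X.W s := by
  classical
  unfold LSeries EL
  refine tprod_congr fun v => ?_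
  unfold localFactor NF.gv Pool.Agent.H921R2.TatePole.nm trace good nrm
  congr 1
  ring

lemma kl (X : Curve) : KL (trace X) (good X) X.A X.Λ := by
  classical
  have h := X.hasseWeil
  refine ⟨fun v => trace_le v _, fun v => ?_, fun v => ?_, fun v => ?_,
    h.one_le, h.entire, h.order, h.fe, ?_⟩
  · show ‖(if (X.W v).Δ ∈ v.asIdeal then 0 else (Ideal.absNorm v.asIdeal : ℂ))‖ ≤
      ((Ideal.absNorm v.asIdeal : ℕ) : ℝ)
    split_ifs
    · rw [norm_zero]
      exact Nat.cast_nonneg _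
    · rw [Complex.norm_natCast]
  · show conj ((Ideal.absNorm v.asIdeal : ℂ) - ((_ : ℕ) : ℂ)) = _
    rw [map_sub, Complex.conj_natCast, Complex.conj_natCast]
    rfl
  · show conj (if (X.W v).Δ ∈ v.asIdeal then 0 else (Ideal.absNorm v.asIdeal : ℂ)) = good X v
    unfold good nrm
    split_ifs
    · rw [map_zero]
    · rw [Complex.conj_natCast]
  · obtain ⟨σ, hσ⟩ := h.eq
    refine ⟨σ, fun s hs => ?_⟩
    rw [hσ s hs, EL_eq]

lemma good_or (X : Curve) (v : HeightOneSpectrum (𝓞 X.K)) : good X v = 0 ∨ good X v = (nm v : ℂ) := by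
  classical
  unfold good
  split_ifs
  · exact Or.inl rfl
  · exact Or.inr rfl

lemma frob_eq (X : Curve) (v : HeightOneSpectrum (𝓞 X.K)) : ∀ k : ℕ, frob X v k = fr (trace X) (good X) v k ∧
    frob X v (k + 1) = fr (trace X) (good X) v (k + 1) := by
  intro k
  induction k with
  | zero => exact ⟨rfl, rfl⟩
  | succ k ih =>
    refine ⟨ih.2, ?_⟩
    show trace X v * frob X v (k + 1) - good X v * frob X v k =
      trace X v * fr (trace X) (good X) v (k + 1) - good X v * fr (trace X) (good X) v k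
    rw [ih.1, ih.2]

open Pool.Agent.Q286.XG in
lemma outX (X : Curve) : Pool.Agent.Q286.XG.OutX (W X) X.Λ (fun ρ => X.Λ ρ = 0 ∧ 0 < ρ.im) 1 1 (rank X)
    (fun a => Real.exp (a / X.deg)) (2 * Real.pi * X.deg * X.A ^ (-(1 / (2 * (X.deg : ℝ))))) ∧
    Pool.Agent.Q286.XG.OutN (W X) X.Λ 1 1 (rank X) (fun a => Real.exp (a / X.deg))
      (2 * Real.pi * X.deg * X.A ^ (-(1 / (2 * (X.deg : ℝ))))) := by
  obtain ⟨L, hm, hQ, h1, h2, k, hk, h3⟩ := exK2 (kl X) (good_or X)
  have hW : ∀ (a : ℝ) (g : ℝ → ℂ), W X a g = Pool.Agent.Q286.TR.W L a g := fun a g => by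
    rw [h1]
    unfold W WK
    congr 1
    refine congrArg (fun z : ℂ => 2 * z.re) ?_
    refine finsum_mem_congr rfl fun x _ => ?_
    rw [(frob_eq X x.1 x.2).1]
    rfl
  have H := outSelf (Λ := X.Λ) (V := W X) (P := fun ρ => X.Λ ρ = 0 ∧ 0 < ρ.im) jx rx h2 X.hasseWeil.entire (c := 1) (r := 1) (by norm_num) hk h3
    (fun a _ f _ => hW a f) (fun ρ => Iff.rfl)
  have HN := outSelfN (Λ := X.Λ) (V := W X) jx jn h2 X.hasseWeil.entire (c := 1) (r := 1) (by norm_num) hk h3 (fun a _ f _ => hW a f)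
  have hd : (L.m : ℝ) = 2 * (X.deg : ℝ) := by
    rw [hm]
    unfold Curve.deg
    push_cast
    ring
  have e1 : (fun a : ℝ => Real.exp (2 * a / L.m)) = fun a => Real.exp (a / X.deg) := by
    funext a
    rw [hd, mul_div_mul_left _ _ two_ne_zero]
  have e2 : Real.pi * L.m * L.Q ^ (-(1 / (L.m : ℝ))) = 2 * Real.pi * X.deg * X.A ^ (-(1 / (2 * (X.deg : ℝ)))) := by
    rw [hd, hQ]
    ring
  rw [e1, e2] at H HN
  exact ⟨H, HN⟩

/-- **The theorem.** -/
theorem result (X : Curve) :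
    (RiemannHypothesis X →
      (∀ (a : ℝ) (ν : ℕ∞), 0 < a → (∃ f, Extremal X a ν f) ∧ ∀ f, Extremal X a ν f →
        (rank X : ℝ) < W X a f ∧ (∀ g, Extremal X a ν g → g =ᵐ[volume] f) ∧ (∀ s, M f (2 - s) = M f s) ∧
          (∀ s, M f ((starRingEnd ℂ) s) = (starRingEnd ℂ) (M f s)) ∧ ∀ s, M f s = 0 → s.re = 1) ∧
      (∀ b : ℝ, ∃ K A : ℝ, ∀ (a : ℝ) (ν : ℕ∞) (f : ℝ → ℂ), A ≤ a → Large (K * a ^ 2) ν → Extremal X a ν f →
        W X a f ≤ rank X + Real.exp (-(b * a ^ 2 * Real.log a))) ∧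
      (∀ R ε : ℝ, 0 < ε → ∃ K A : ℝ, ∀ (a : ℝ) (ν : ℕ∞) (f : ℝ → ℂ), A ≤ a → Large (K * a ^ 2) ν → Extremal X a ν f →
        ∀ s : ℂ, ‖s - 1‖ ≤ R → ‖M f s - Xred X s‖ ≤ ε) ∧
      (∀ ρ : ℂ, X.Λ ρ = 0 → ρ ≠ 1 → ∀ b : ℝ, ∃ K A : ℝ, ∀ (a : ℝ) (ν : ℕ∞) (f : ℝ → ℂ), A ≤ a → Large (K * a ^ 2) ν → Extremal X a ν f →
        ∃ t : ℝ, M f (1 + t * I) = 0 ∧ |t - ρ.im| ≤ Real.exp (-(b * a ^ 2 * Real.log a))) ∧
      (∀ b : ℝ, b < 4 * Real.pi * X.deg * X.A ^ (-(1 / (2 * (X.deg : ℝ)))) →
        (∃ K A : ℝ, ∀ (a : ℝ) (ν : ℕ∞) (f : ℝ → ℂ), A ≤ a → Large (K * a * Real.exp (a / X.deg)) ν → Extremal X a ν f →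
          W X a f ≤ rank X + Real.exp (-(b * Real.exp (a / X.deg)))) ∧
        ∀ ρ : ℂ, X.Λ ρ = 0 → ρ ≠ 1 → ∃ K A : ℝ, ∀ (a : ℝ) (ν : ℕ∞) (f : ℝ → ℂ), A ≤ a → Large (K * a * Real.exp (a / X.deg)) ν →
          Extremal X a ν f → ∃ t : ℝ, M f (1 + t * I) = 0 ∧ |t - ρ.im| ≤ Real.exp (-(b * Real.exp (a / X.deg))))) ∧
    (¬ RiemannHypothesis X → ∀ n : ℝ → ℕ, Tendsto (fun a : ℝ => (n a : ℝ) / a) atTop atTop →
      ∃ A : ℝ, ∀ a : ℝ, A ≤ a → ∀ B : ℝ, ∃ f, Trig a (n a) f ∧ M f 1 = 1 ∧ W X a f < -B) ∧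
    (∀ n : ℝ → ℕ∞, (∀ K : ℝ, ∀ᶠ a in atTop, ∀ j : ℕ, n a = j → K * a ≤ j) →
      (RiemannHypothesis X ↔ ∀ A : ℝ, ∃ a : ℝ, A ≤ a ∧ ∃ f, Extremal X a (n a) f)) := by
  obtain ⟨H, HN⟩ := outX X
  have e2 : ∀ s : ℂ, (2 : ℂ) * 1 - s = 2 - s := fun s => by ring
  have e4 : 4 * Real.pi * X.deg * X.A ^ (-(1 / (2 * (X.deg : ℝ)))) = 2 * (2 * Real.pi * X.deg * X.A ^ (-(1 / (2 * (X.deg : ℝ))))) := by ring
  refine ⟨fun hR => ⟨fun a ν ha => ⟨H.ex hR a ν ha, fun f hf => ?_⟩, H.val hR, H.conv hR, H.zer hR, fun b hb => ?_⟩,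
    fun hR => H.neg hR, H.iffE⟩
  · obtain ⟨h1, h2, h3, h4, h5⟩ := H.str hR a ν f ha hf
    exact ⟨h1, h2, fun s => by have := h3 s; rwa [e2] at this, h4, h5⟩
  · rw [e4] at hb
    exact ⟨HN.rateV hR b hb, fun ρ hρ hρ1 => HN.rateZ hR ρ hρ hρ1 b hb⟩

end Pool.Agent.Results.MP_fb225e_nt.ExtremalFunctions
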