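import Pool.Agent.Q286.TR.EK
import Pool.Agent.Q240.OW.K3

/-!
# The spectra attached to an elliptic curve over a number field: a trichotomy

Let `E` be an elliptic curve over a number field `K` for which the properties conjectured by Hasse and Weil hold (`Λ(E/K, s)`
entire, of finite order, `Λ(s) = ± Λ(2 - s)`).  Let `t_k(v) = α_v^k + β_v^k` be the traces of the powers of Frobenius at the
finite places.  For `a > 0` let `W_a` be Weil's quadratic form of `E/K` on the functions on `[-a, a]`, written through the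
conductor, the archimedean places and the numbers `t_k(v)` with `Nv^k ≤ exp (2 a)`; no zero of `L(E/K, s)` and no
continuation enters.  Restricted to the trigonometric polynomials of degree at most `n` it is a Hermitian matrix of size
`2 n + 1`.  The zeros of the Mellin transform `M f` of a ground state `f` form the spectrum attached to `a, n`, as Connes,
Consani and Moscovici did for zeta.

(A) Let `n a / a ^ 2 → κ > 0`, `Gs κ s = exp ((s - 1) ^ 2 / (π ^ 2 κ))`, and `Xred` the product over the distinct zeros in the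
upper half plane.  There are three cases.

* The Riemann hypothesis for `E/K` holds and `Λ(E/K, 1) ≠ 0`, if and only if `M f s / M f 1` tends to `Xred s * Gs κ s`, locally
  uniformly in the complex plane, for the ground states of degree `n a`.  They are even for large `a`.
* The Riemann hypothesis for `E/K` holds and `Λ(E/K, 1) = 0`, if and only if `M f s / (M f)' 1` tends to
  `(s - 1) * Xred s * Gs κ s`.  The ground states are odd for large `a`.
* The Riemann hypothesis for `E/K` fails.  Then for all degrees `m a ≥ n a` the lowest eigenvalue tends to `-∞`, and the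
  spectra become dense in the critical line: the number of zeros of `M f` in every interval tends to infinity.

So under the Riemann hypothesis the symmetry of the ground state decides whether the analytic rank of `E/K` is positive.  In
the first two cases the ground state is unique up to a factor, the convergence is faster than exponential (the distance of a
zero to the spectrum is at most `exp (- c a ^ 2 log a)` for every `c < 2 κ`), the lowest eigenvalue is positive and at most
`exp (- c a ^ 2 log a)` for every `c < 4 κ`, and the second eigenvalue is infinitely larger.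

(B) The Riemann hypothesis for `E/K` holds if and only if for some interval the number of points of the spectrum does not
tend to infinity, and if and only if the lowest eigenvalue does not tend to `-∞`.

(C) Unconditionally the `k`-th eigenvalue `λ` of `W_a` satisfies `max 1 (-λ) = exp ((2 β - 2 + o(1)) a)`, where `β` is the
`k`-th largest real part of the zeros (at least `1`), for all degrees `m a` with `m a / a → ∞`, `log (m a) = exp (o(a))`.
-/

set_option autoImplicit false

open Complex NumberField IsDedekindDomain MeasureTheory Filter Topology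
open scoped ComplexConjugate

namespace Pool.Agent.Results.MP_fb225e_nt.SpectralTrichotomy

/-! ### Hasse-Weil L-functions of elliptic curves over number fields -/

/-- `W v` is, for every finite place `v`, an integral model of `E` with discriminant minimal at
`v`. -/
def MinimalModels {K : Type} [Field K] [NumberField K] (E : WeierstrassCurve K)
    (W : HeightOneSpectrum (𝓞 K) → WeierstrassCurve (𝓞 K)) : Prop :=
  ∀ v : HeightOneSpectrum (𝓞 K),
    (∃ C : WeierstrassCurve.VariableChange K, C • (W v).map (algebraMap (𝓞 K) K) = E) ∧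
    ∀ W' : WeierstrassCurve (𝓞 K),
      (∃ C : WeierstrassCurve.VariableChange K, C • W'.map (algebraMap (𝓞 K) K) = E) →
      ∀ n : ℕ, (W v).Δ ∈ v.asIdeal ^ n → W'.Δ ∈ v.asIdeal ^ n

open Classical in
/-- The Euler factor at `v`, `(1 - a_v Nv^{-s} + Nv^{1-2s})⁻¹` if the reduction at `v` is good and
`(1 - a_v Nv^{-s})⁻¹` if it is bad, where `a_v` is `Nv` minus the number of affine points of the
reduction of `W v`. -/
noncomputable def localFactor {K : Type} [Field K] [NumberField K]
    (W : HeightOneSpectrum (𝓞 K) → WeierstrassCurve (𝓞 K)) (v : HeightOneSpectrum (𝓞 K))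
    (s : ℂ) : ℂ :=
  (1 - ((Ideal.absNorm v.asIdeal : ℂ)
        - (Nat.card {xy : (𝓞 K ⧸ v.asIdeal) × (𝓞 K ⧸ v.asIdeal) //
            ((W v).map (Ideal.Quotient.mk v.asIdeal)).toAffine.Equation xy.1 xy.2} : ℂ))
        * (Ideal.absNorm v.asIdeal : ℂ) ^ (-s)
    + (if (W v).Δ ∈ v.asIdeal then 0 else (Ideal.absNorm v.asIdeal : ℂ))
        * (Ideal.absNorm v.asIdeal : ℂ) ^ (-2 * s))⁻¹

/-- The `L`-function `L(E/K, s)` in the half-plane of convergence, as the Euler product over all
finite places. -/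
noncomputable def LSeries {K : Type} [Field K] [NumberField K]
    (W : HeightOneSpectrum (𝓞 K) → WeierstrassCurve (𝓞 K)) (s : ℂ) : ℂ :=
  ∏' v : HeightOneSpectrum (𝓞 K), localFactor W v s

/-- `Λ` is the completed L-function `A^(s/2) ((2π)^(-s) Γ(s))^[K : ℚ] L(E/K, s)`, and it has the
properties conjectured by Hasse and Weil: it is entire, of finite order, and `Λ(s) = ± Λ(2 - s)`. -/
structure HasseWeil {K : Type} [Field K] [NumberField K]
    (W : HeightOneSpectrum (𝓞 K) → WeierstrassCurve (𝓞 K)) (A : ℝ) (Λ : ℂ → ℂ) : Prop where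
  one_le : 1 ≤ A
  entire : Differentiable ℂ Λ
  order : ∃ c ρ : ℝ, ∀ s : ℂ, ‖Λ s‖ ≤ Real.exp (c * (1 + ‖s‖) ^ ρ)
  fe : ∃ w : ℝ, (w = 1 ∨ w = -1) ∧ ∀ s : ℂ, Λ s = w * Λ (2 - s)
  eq : ∃ σ : ℝ, ∀ s : ℂ, σ ≤ s.re → Λ s = (A : ℂ) ^ (s / 2) *
    ((2 * (Real.pi : ℂ)) ^ (-s) * Gamma s) ^ Module.finrank ℚ K * LSeries W s

/-- An elliptic curve `E` over a number field `K` (for the problem: defined over `ℚ`), with minimal models, the
conductor `A` of its L-function and the completed L-function `Λ`, with the properties conjectured by Hasse and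
Weil. -/
structure Curve where
  /-- the number field -/
  K : Type
  [field : Field K]
  [numberField : NumberField K]
  /-- the elliptic curve -/
  E : WeierstrassCurve K
  [elliptic : E.IsElliptic]
  /-- minimal models -/
  W : HeightOneSpectrum (𝓞 K) → WeierstrassCurve (𝓞 K)
  minimal : MinimalModels E W
  /-- the conductor -/
  A : ℝ
  /-- the completed L-function -/
  Λ : ℂ → ℂ
  hasseWeil : HasseWeil W A Λ

attribute [instance] Curve.field Curve.numberField Curve.elliptic

/-- The degree of the number field. -/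
noncomputable def Curve.deg (X : Curve) : ℕ := Module.finrank ℚ X.K

/-- The norm `Nv` of a finite place. -/
noncomputable def nrm {K : Type} [Field K] [NumberField K] (v : HeightOneSpectrum (𝓞 K)) : ℕ := Ideal.absNorm v.asIdeal

/-- The coefficient `a_v`: `Nv` minus the number of affine points of the reduction of the minimal model at `v`. -/
noncomputable def trace (X : Curve) (v : HeightOneSpectrum (𝓞 X.K)) : ℂ :=
  (nrm v : ℂ) - (Nat.card {xy : (𝓞 X.K ⧸ v.asIdeal) × (𝓞 X.K ⧸ v.asIdeal) //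
    ((X.W v).map (Ideal.Quotient.mk v.asIdeal)).toAffine.Equation xy.1 xy.2} : ℂ)

open Classical in
/-- `Nv` if the reduction at `v` is good and `0` if it is bad. -/
noncomputable def good (X : Curve) (v : HeightOneSpectrum (𝓞 X.K)) : ℂ := if (X.W v).Δ ∈ v.asIdeal then 0 else (nrm v : ℂ)

/-- The traces of the powers of Frobenius at `v`: `t_k = α^k + β^k` (`k ≥ 1`), where
`1 - a_v T + Nv T² = (1 - α T)(1 - β T)` if the reduction is good and `1 - a_v T = 1 - α T`, `β = 0` if it is bad. -/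
noncomputable def frob (X : Curve) (v : HeightOneSpectrum (𝓞 X.K)) : ℕ → ℂ
  | 0 => 2
  | 1 => trace X v
  | k + 2 => trace X v * frob X v (k + 1) - good X v * frob X v k

/-- The Riemann hypothesis for `E/K`: all zeros of `Λ(E/K, s)` have real part `1`. -/
def RiemannHypothesis (X : Curve) : Prop := ∀ s : ℂ, X.Λ s = 0 → s.re = 1

/-! ### The quadratic form and the spectra -/

/-- The trigonometric polynomials of degree at most `n` on `[-a, a]`, extended by `0`. -/
def Trig (a : ℝ) (n : ℕ) (f : ℝ → ℂ) : Prop := ∃ c : ℤ → ℂ, ∀ x : ℝ,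
  f x = if |x| ≤ a then ∑ k ∈ Finset.Icc (-(n : ℤ)) n, c k * cexp ((Real.pi * k * x / a : ℝ) * I) else 0

/-- The Mellin transform of `f` in the logarithmic variable, centred at `1`. -/
noncomputable def M (f : ℝ → ℂ) (s : ℂ) : ℂ := ∫ x : ℝ, f x * cexp ((s - 1) * x)

/-- The square of the norm of `f` in `L²`. -/
noncomputable def N (f : ℝ → ℂ) : ℝ := ∫ x : ℝ, ‖f x‖ ^ 2

/-- Weil's quadratic form of `E/K` for functions supported in `[-a, a]`: the conductor, the archimedean places (Gamma factor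
`((2π)^(-s) Γ(s))^[K : ℚ]`) and the powers `Nv^k ≤ exp (2 a)` (`k ≥ 1`) of the norms of the finite places. -/
noncomputable def W (X : Curve) (a : ℝ) (f : ℝ → ℂ) : ℝ :=
  1 / (2 * Real.pi) * (∫ x : ℝ, (Real.log X.A + X.deg * (2 * (digamma (1 + x * I)).re - 2 * Real.log (2 * Real.pi))) *
    ‖M f (1 + x * I)‖ ^ 2) -
  2 * (∑ᶠ x ∈ {x : HeightOneSpectrum (𝓞 X.K) × ℕ | 1 ≤ x.2 ∧ (nrm x.1 : ℝ) ^ x.2 ≤ Real.exp (2 * a)},
    Real.log (nrm x.1) / (nrm x.1 : ℂ) ^ x.2 * frob X x.1 x.2 *
    ∫ y : ℝ, f (y + x.2 * Real.log (nrm x.1)) * (starRingEnd ℂ) (f y)).re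

/-- `f` is a ground state in degree at most `n`: it is a trigonometric polynomial, not zero, and minimises `W X a / N`. -/
def Ground (X : Curve) (a : ℝ) (n : ℕ) (f : ℝ → ℂ) : Prop :=
  Trig a n f ∧ N f ≠ 0 ∧ ∀ g : ℝ → ℂ, Trig a n g → W X a f * N g ≤ W X a g * N f

/-- The reduced function: the product over the distinct zeros of `Λ(E/K, s)` in the upper half plane. -/
noncomputable def Xred (X : Curve) (s : ℂ) : ℂ :=
  ∏' ρ : {ρ : ℂ // X.Λ ρ = 0 ∧ 0 < ρ.im}, (1 - (s - 1) ^ 2 / ((ρ : ℂ) - 1) ^ 2)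

/-- The Gaussian factor. -/
noncomputable def Gs (κ : ℝ) (s : ℂ) : ℂ := cexp ((s - 1) ^ 2 / (Real.pi ^ 2 * κ))

/-- The numbers `x` such that `F ≤ x N` on some space of trigonometric polynomials of dimension `k`; the least of them is
the `k`-th eigenvalue of `F`. -/
def Level (F : (ℝ → ℂ) → ℝ) (a : ℝ) (n k : ℕ) : Set ℝ := {x : ℝ | ∃ V : Submodule ℂ (ℝ → ℂ), (∀ f ∈ V, Trig a n f) ∧
  Module.finrank ℂ V = k ∧ ∀ f ∈ V, F f ≤ x * N f}

/-- The ordinates in `(u, v)` of the zeros of the transform of `f` on the critical line. -/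
def Ord (f : ℝ → ℂ) (u v : ℝ) : Set ℝ := {t : ℝ | u < t ∧ t < v ∧ M f (1 + t * I) = 0}

/-- The `k`-th largest real part of the distinct zeros of `Λ(E/K, s)` (but at least `1`). -/
noncomputable def beta (X : Curve) (k : ℕ) : ℝ := sInf {x : ℝ | 1 ≤ x ∧ {s : ℂ | X.Λ s = 0 ∧ x < s.re}.encard < k}

/-! ### The proof -/

open Q240.OW Pool.Agent.TH839.UH Pool.Agent.Q286.TR
open Pool.Agent.H921R2.TatePole (nm)

lemma EL_eq (X : Curve) (s : ℂ) : EL (trace X) (good X) s = LSeries X.W s := by
  classical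
  unfold LSeries EL
  refine tprod_congr fun v => ?_
  unfold localFactor NF.gv Pool.Agent.H921R2.TatePole.nm trace good nrm
  congr 1
  ring

lemma kl (X : Curve) : KL (trace X) (good X) X.A X.Λ := by
  classical
  have h := X.hasseWeil
  refine ⟨fun v => trace_le v _, fun v => ?_, fun v => ?_, fun v => ?_,
    h.one_le, h.entire, h.order, h.fe, ?_⟩
  · show ‖(if (X.W v).Δ ∈ v.asIdeal then 0 else (Ideal.absNorm v.asIdeal : ℂ))‖ ≤
      ((Ideal.absNorm v.asIdeal : ℕ) : ℝ)
    split_ifs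
    · rw [norm_zero]
      exact Nat.cast_nonneg _
    · rw [Complex.norm_natCast]
  · show conj ((Ideal.absNorm v.asIdeal : ℂ) - ((_ : ℕ) : ℂ)) = _
    rw [map_sub, Complex.conj_natCast, Complex.conj_natCast]
    rfl
  · show conj (if (X.W v).Δ ∈ v.asIdeal then 0 else (Ideal.absNorm v.asIdeal : ℂ)) = good X v
    unfold good nrm
    split_ifs
    · rw [map_zero]
    · rw [Complex.conj_natCast]
  · obtain ⟨σ, hσ⟩ := h.eq
    refine ⟨σ, fun s hs => ?_⟩
    rw [hσ s hs, EL_eq]

lemma good_or (X : Curve) (v : HeightOneSpectrum (𝓞 X.K)) : good X v = 0 ∨ good X v = (nm v : ℂ) := by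
  classical
  unfold good
  split_ifs
  · exact Or.inl rfl
  · exact Or.inr rfl

lemma frob_eq (X : Curve) (v : HeightOneSpectrum (𝓞 X.K)) : ∀ k : ℕ, frob X v k = fr (trace X) (good X) v k ∧
    frob X v (k + 1) = fr (trace X) (good X) v (k + 1) := by
  intro k
  induction k with
  | zero => exact ⟨rfl, rfl⟩
  | succ k ih =>
    refine ⟨ih.2, ?_⟩
    show trace X v * frob X v (k + 1) - good X v * frob X v k =
      trace X v * fr (trace X) (good X) v (k + 1) - good X v * fr (trace X) (good X) v k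
    rw [ih.1, ih.2]

lemma outX (X : Curve) : Out (W X) (W X) X.Λ (fun ρ => X.Λ ρ = 0 ∧ 0 < ρ.im) 1 1 := by
  obtain ⟨L, h1, h2, k, hk, h3⟩ := exK (kl X) (good_or X)
  have hW : ∀ (a : ℝ) (g : ℝ → ℂ), W X a g = Pool.Agent.Q286.TR.W L a g := fun a g => by
    rw [h1]
    unfold W WK
    congr 1
    refine congrArg (fun z : ℂ => 2 * z.re) ?_
    refine finsum_mem_congr rfl fun x _ => ?_
    rw [(frob_eq X x.1 x.2).1]
    rfl
  refine out (L := L) (by norm_num) hk h3 (q := 1 / 2) (by norm_num) (fun a ha n f hf => ?_) (fun a _ n f _ => hW a f) (fun ρ => ?_)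
  · rw [selfDual_W L h2 ha hf, hW]
    ring
  · have h4 := conj_zero h2 hk (c := 1) (r := 1) (by norm_num) h3 ρ
    rw [h4, or_self]

/-- **The theorem.** -/
theorem result (X : Curve) :
    (∀ a : ℝ, 0 < a → ∀ m : ℕ, ∃ f, Ground X a m f) ∧
    (∀ (κ : ℝ) (n : ℝ → ℕ), 0 < κ → Tendsto (fun a : ℝ => (n a : ℝ) / a ^ 2) atTop (𝓝 κ) →
      ((RiemannHypothesis X ∧ X.Λ 1 ≠ 0) ↔ ∀ f : ℝ → ℝ → ℂ, (∀ a, 0 < a → Ground X a (n a) (f a)) →
        TendstoLocallyUniformly (fun a s => M (f a) s / M (f a) 1) (fun s => Xred X s * Gs κ s) atTop) ∧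
      ((RiemannHypothesis X ∧ X.Λ 1 = 0) ↔ ∀ f : ℝ → ℝ → ℂ, (∀ a, 0 < a → Ground X a (n a) (f a)) →
        TendstoLocallyUniformly (fun a s => M (f a) s / deriv (M (f a)) 1) (fun s => (s - 1) * Xred X s * Gs κ s) atTop) ∧
      (RiemannHypothesis X → (∃ A : ℝ, ∀ a, A ≤ a → ∀ f, Ground X a (n a) f →
          (X.Λ 1 ≠ 0 → M f 1 ≠ 0 ∧ ∀ x, f (-x) = f x) ∧
          (X.Λ 1 = 0 → deriv (M f) 1 ≠ 0 ∧ ∀ x, f (-x) = -f x) ∧
          ∀ g, Ground X a (n a) g → ∃ z : ℂ, ∀ x, g x = z * f x) ∧
        (∀ b : ℝ, b < 4 * κ → ∃ A : ℝ, ∀ a, A ≤ a → ∀ f, Ground X a (n a) f →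
          0 < W X a f ∧ W X a f ≤ Real.exp (-(b * a ^ 2 * Real.log a)) * N f) ∧
        (∀ B : ℝ, ∃ A : ℝ, ∀ a, A ≤ a → ∀ f, Ground X a (n a) f → ∀ x ∈ Level (W X a) a (n a) 2, B * W X a f ≤ x * N f) ∧
        (∀ ρ : ℂ, X.Λ ρ = 0 → ∀ b : ℝ, b < 2 * κ → ∃ A : ℝ, ∀ a, A ≤ a → ∀ f, Ground X a (n a) f →
          ∃ t : ℝ, M f (1 + t * I) = 0 ∧ |t - ρ.im| ≤ Real.exp (-(b * a ^ 2 * Real.log a)))) ∧
      (¬ RiemannHypothesis X → ∀ m : ℝ → ℕ, (∀ᶠ a in atTop, n a ≤ m a) →
        (∀ B : ℝ, ∃ A : ℝ, ∀ a, A ≤ a → ∀ f, Ground X a (m a) f → W X a f < -B * N f) ∧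
        ∀ (u v : ℝ) (C : ℕ), u < v → ∃ A : ℝ, ∀ a, A ≤ a → ∀ f, Ground X a (m a) f → (C : ℕ∞) ≤ (Ord f u v).encard) ∧
      (RiemannHypothesis X ↔ ∃ (u v : ℝ) (C : ℕ), u < v ∧ ∀ A : ℝ, ∃ a, A ≤ a ∧ ∃ f, Ground X a (n a) f ∧
        (Ord f u v).encard ≤ (C : ℕ∞)) ∧
      (RiemannHypothesis X ↔ ∃ B : ℝ, ∀ A : ℝ, ∃ a, A ≤ a ∧ ∃ f, Ground X a (n a) f ∧ -B * N f ≤ W X a f)) ∧
    (∀ m : ℝ → ℕ, Tendsto (fun a : ℝ => (m a : ℝ) / a) atTop atTop →
      (∀ ε : ℝ, 0 < ε → ∀ᶠ a : ℝ in atTop, Real.log (m a) ≤ Real.exp (ε * a)) →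
      ∀ k : ℕ, 1 ≤ k →
        Tendsto (fun a : ℝ => Real.log (max 1 (-sInf (Level (W X a) a (m a) k))) / a) atTop (𝓝 (2 * (beta X k - 1)))) :=
  have H := outX X
  ⟨H.ex, fun κ n hκ hn => ⟨H.even κ n hκ hn, H.odd κ n hκ hn, H.str κ n hκ hn, H.not κ n hκ hn, H.ord κ n hκ hn,
    H.low κ n hκ hn⟩, H.rate⟩

end Pool.Agent.Results.MP_fb225e_nt.SpectralTrichotomy
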